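import Pool.Agent.Lib.MP_b0c2b5_co.C5.Defs

/-! A gap of scales. -/

set_option autoImplicit false

namespace Pool.Agent.Lib.MP_b0c2b5_co.C5

open Finset LS
open scoped Classical

universe u

/-- Sequences of natural numbers: if `1 ≤ n l ≤ K - 1` for all `l ≤ K` and `n` decreases, it is constant somewhere. -/
private theorem Gap_seq (n : ℕ → ℕ) (K : ℕ) (h1 : ∀ l, 1 ≤ n l) (h0 : n 0 < K) (hm : ∀ l, n (l + 1) ≤ n l) :
    ∃ l < K, n (l + 1) = n l := by
  by_contra hcon
  push Not at hcon
  have key : ∀ l, l ≤ K → n l + l ≤ n 0 := by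
    intro l
    induction l with
    | zero => intro _; simp
    | succ l ih =>
      intro hl
      have h2 := ih (by omega)
      have h3 := hcon l (by omega)
      have h4 := hm l
      omega
  have h5 := key K le_rfl
  have h6 := h1 K
  omega

/-- `E m u v`: the distance of `u` and `v` is at most `m`. If there are no `K` points of `U` with pairwise distances larger than `m1`, then for some scale `8 ^ l * m1`, `l < K`, there is a gap.

PROOF. For `l : ℕ` let `n l` be the largest number of elements of a finset `P ⊆ U` with `¬ E (8^l * m1) u v` for all different `u, v ∈ P` (`Finset.exists_max_image` or `Nat.findGreatest` with bound `K`; such sets have fewer than `K` elements: for `l = 0` by `hK` (take a subset with `K` elements), for larger `l` because `E` is monotone,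
`em`). `n (l+1) ≤ n l`. If `U` is empty take `l = 0`. Otherwise `1 ≤ n l ≤ K - 1` for all `l` (singletons), so there is `l < K` with `n (l+1) = n l` (otherwise `n l + l ≤ n 0` for `l ≤ K`, contradiction for `l = K`). Let `P` be a set for `n (l+1)`. Every `u ∈ U` has `E (8^l * m1) u p` for some `p ∈ P`: otherwise `insert u P` would be a set for `l` with
`n l + 1` elements (`E (8^(l+1) m1)` fails, so `E (8^l m1)` fails on `P`; note `u ∉ P` because `E (8^l*m1) u u`, `er`; symmetry `es`). Let `u, u' ∈ U` with `p`, `p'`. If `p = p'` then `E (2 * (8^l * m1)) u u'` (`es`, `et`). If `p ≠ p'` and `E (6 * (8^l * m1)) u u'`, then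
`E (8^l m1 + 6 * 8^l m1 + 8^l m1) p p'`, and this is `E (8^(l+1) * m1) p p'`: contradiction. -/
theorem gap {V : Type u} [Finite V] (E : ℕ → V → V → Prop) (er : ∀ m u, E m u u)
    (es : ∀ m u v, E m u v → E m v u) (et : ∀ m m' u v w, E m u v → E m' v w → E (m + m') u w)
    (em : ∀ m m' u v, m ≤ m' → E m u v → E m' u v) (m1 K : ℕ) (hK1 : 1 ≤ K) (U : Set V)
    (hK : ¬ ∃ P : Finset V, P.card = K ∧ (P : Set V) ⊆ U ∧ ∀ u ∈ P, ∀ v ∈ P, u ≠ v → ¬ E m1 u v) :
    ∃ l < K, ∀ u ∈ U, ∀ v ∈ U, E (2 * (8 ^ l * m1)) u v ∨ ¬ E (6 * (8 ^ l * m1)) u v := by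
  haveI : Fintype V := Fintype.ofFinite V
  rcases Set.eq_empty_or_nonempty U with hU | ⟨u0, hu0⟩
  · refine ⟨0, by omega, ?_⟩
    intro u hu
    rw [hU] at hu
    exact absurd hu (Set.notMem_empty u)
  -- good sets of scale `l`
  set G : ℕ → Finset V → Prop := fun l P => (P : Set V) ⊆ U ∧ ∀ u ∈ P, ∀ v ∈ P, u ≠ v → ¬ E (8 ^ l * m1) u v with hG
  set n : ℕ → ℕ := fun l => (Finset.univ.filter (G l)).sup Finset.card with hn
  have hle : ∀ l P, G l P → P.card ≤ n l := by
    intro l P hP
    exact Finset.le_sup (f := Finset.card) (Finset.mem_filter.2 ⟨Finset.mem_univ P, hP⟩)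
  have hsing : ∀ l, G l {u0} := by
    intro l
    refine ⟨?_, ?_⟩
    · intro x hx
      have : x = u0 := by simpa using hx
      rw [this]
      exact hu0
    · intro u hu v hv huv
      rw [Finset.mem_singleton] at hu hv
      exact absurd (hu.trans hv.symm) huv
  have hatt : ∀ l, ∃ P, G l P ∧ P.card = n l := by
    intro l
    have hne : (Finset.univ.filter (G l)).Nonempty := ⟨{u0}, Finset.mem_filter.2 ⟨Finset.mem_univ _, hsing l⟩⟩
    obtain ⟨P, hP, hPe⟩ := Finset.exists_mem_eq_sup _ hne Finset.card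
    exact ⟨P, (Finset.mem_filter.1 hP).2, hPe.symm⟩
  have h1 : ∀ l, 1 ≤ n l := by
    intro l
    have := hle l _ (hsing l)
    simpa using this
  have h0 : n 0 < K := by
    by_contra hcon
    push Not at hcon
    obtain ⟨P, hP, hPe⟩ := hatt 0
    obtain ⟨Q, hQP, hQ⟩ := Finset.exists_subset_card_eq (hPe ▸ hcon : K ≤ P.card)
    apply hK
    refine ⟨Q, hQ, ?_, ?_⟩
    · intro x hx
      exact hP.1 (hQP hx)
    · intro u hu v hv huv
      have := hP.2 u (hQP hu) v (hQP hv) huv
      simpa using this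
  have hpow : ∀ l, 8 ^ l * m1 ≤ 8 ^ (l + 1) * m1 := by
    intro l
    exact Nat.mul_le_mul_right _ (Nat.pow_le_pow_right (by norm_num) (Nat.le_succ l))
  have hGm : ∀ l P, G (l + 1) P → G l P := by
    intro l P hP
    refine ⟨hP.1, ?_⟩
    intro u hu v hv huv hE
    exact hP.2 u hu v hv huv (em _ _ _ _ (hpow l) hE)
  have hm : ∀ l, n (l + 1) ≤ n l := by
    intro l
    obtain ⟨P, hP, hPe⟩ := hatt (l + 1)
    rw [← hPe]
    exact hle l P (hGm l P hP)
  obtain ⟨l, hlK, hl⟩ := Gap_seq n K h1 h0 hm
  refine ⟨l, hlK, ?_⟩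
  obtain ⟨P, hP, hPe⟩ := hatt (l + 1)
  have hnear : ∀ u ∈ U, ∃ p ∈ P, E (8 ^ l * m1) u p := by
    intro u hu
    by_contra hcon
    push Not at hcon
    have huP : u ∉ P := by
      intro h
      exact hcon u h (er _ u)
    have hins : G l (insert u P) := by
      refine ⟨?_, ?_⟩
      · intro x hx
        rw [Finset.mem_coe, Finset.mem_insert] at hx
        rcases hx with rfl | hx
        · exact hu
        · exact hP.1 hx
      · intro x hx y hy hxy
        rw [Finset.mem_insert] at hx hy
        rcases hx with rfl | hx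
        · rcases hy with rfl | hy
          · exact absurd rfl hxy
          · exact hcon y hy
        · rcases hy with rfl | hy
          · intro hE
            exact hcon x hx (es _ _ _ hE)
          · exact (hGm l P hP).2 x hx y hy hxy
    have h2 := hle l _ hins
    rw [Finset.card_insert_of_notMem huP, hPe, hl] at h2
    omega
  intro u hu v hv
  obtain ⟨p, hp, hup⟩ := hnear u hu
  obtain ⟨q, hq, hvq⟩ := hnear v hv
  by_cases hpq : p = q
  · left
    subst hpq
    have := et _ _ _ _ _ hup (es _ _ _ hvq)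
    rwa [← two_mul] at this
  · right
    intro hE
    apply hP.2 p hp q hq hpq
    have h3 := et _ _ _ _ _ (et _ _ _ _ _ (es _ _ _ hup) hE) hvq
    have h4 : 8 ^ l * m1 + 6 * (8 ^ l * m1) + 8 ^ l * m1 = 8 ^ (l + 1) * m1 := by
      rw [pow_succ]
      ring
    rwa [h4] at h3

end Pool.Agent.Lib.MP_b0c2b5_co.C5
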