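import Pool.Agent.Lib.MP_b0c2b5_co.C5.Sys
import Pool.Agent.Lib.MP_b0c2b5_co.C5.Gap

/-! Poor vertices have a gap of scales; on `VL l` nearness is an equivalence relation. -/

set_option autoImplicit false

namespace Pool.Agent.Lib.MP_b0c2b5_co.C5

open Finset LS
open scoped Classical

universe u

variable {V : Type u} [Fintype V] {r lt : V → V → Prop} {s t k M : ℕ} {W : Set V} {H : ℕ → V → Set V}

/-- PROOF. `gap` with `E m u v = nr r s t k M H m u v` (`Near.refl`, `Near.symm`, `Near.trans`, `Near.mono`), `m1 = m1 t k`, `K = KK s t M`, `U = {u | u ∈ Big s t M W H ∧ pp s t M ≤ (par r H x u).card}`. -/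
theorem poor_of_not_rich (ht : 1 ≤ t) {H : V → Set V} {x : V} (hx : x ∈ W)
    (hr : ¬ Rich r s t k M W H x) : ∃ l < KK s t M, x ∈ PL r s t k M W H l := by
  have hK1 : 1 ≤ KK s t M := Nat.le_add_left _ _
  obtain ⟨l, hl, h⟩ := gap (fun m u v => nr r s t k M H m u v) (fun m u => Near.refl ht m _)
    (fun m u v h => Near.symm h) (fun m m' u v w h h' => Near.trans h h')
    (fun m m' u v hm h => Near.mono ht h hm) (m1 t k) (KK s t M) hK1
    {u | u ∈ Big s t M W H ∧ pp s t M ≤ (par r H x u).card} (by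
      rintro ⟨P, h1, h2, h3⟩
      exact hr ⟨P, h1, fun u hu => (h2 hu).1, fun u hu => (h2 hu).2, h3⟩)
  exact ⟨l, hl, hx, fun u hu v hv h1 h2 => h u ⟨hu, h1⟩ v ⟨hv, h2⟩⟩

/-- PROOF. `Ab u \ Ab v ⊆ (Ab u \ As u) ∪ (As u \ As v) ∪ (As v \ Ab v)` is small with constant `θ + 6 * (8^l * m1) + θ ≤ M3` (`near_As_Ab`, `hn`, `8^l ≤ 8^KK`). So `Ab u ∩ PL l` is not contained in it (`hu.2`, `Sm.mono_set`, `Sm.mono_m`): there is `x ∈ Ab u ∩ Ab v ∩ PL l`. By `par_of_mem_Ab` the gap property of `x` applies to `u`, `v`. -/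
theorem anchor (S : Sys r lt s t k M W H) {i : ℕ} (hi : i < M) {l : ℕ} (hl : l < KK s t M) {u v : V}
    (hu : u ∈ VL r s t k M W (H i) l) (hv : v ∈ VL r s t k M W (H i) l)
    (hn : nr r s t k M (H i) (6 * (8 ^ l * m1 t k)) u v) : nr r s t k M (H i) (2 * (8 ^ l * m1 t k)) u v := by
  have h1 := near_As_Ab S hi hu.1
  have h2 := near_As_Ab S hi hv.1
  have h3 := (h1.symm.trans (Near.trans hn h2)).1
  have h4 : th t k (2 * pp s t M - 1) (2 * t - 1) + (6 * (8 ^ l * m1 t k) +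
      th t k (2 * pp s t M - 1) (2 * t - 1)) ≤ M3 s t k M := by
    have h5 : 8 ^ l * m1 t k ≤ 8 ^ KK s t M * m1 t k :=
      Nat.mul_le_mul_right _ (Nat.pow_le_pow_right (by norm_num) hl.le)
    unfold M3
    omega
  have h5 := h3.mono_m S.t1 h4
  have h6 : ∃ x, x ∈ Ab r s t M (H i) u ∩ PL r s t k M W (H i) l ∧ x ∈ Ab r s t M (H i) v := by
    by_contra hc
    push Not at hc
    exact hu.2 (h5.mono_set fun x hx => ⟨hx.1, hc x hx⟩)
  obtain ⟨x, ⟨hxu, hxP⟩, hxv⟩ := h6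
  rcases hxP.2 u hu.1 v hv.1 (par_of_mem_Ab hu.1 hxu) (par_of_mem_Ab hv.1 hxv) with h7 | h7
  · exact h7
  · exact absurd hn h7

/-- PROOF. By `hno` and `poor_of_not_rich`, `Ab u ∩ {x | x ∈ W ∧ ¬ Rich x}` is contained in `{x | ∃ l < KK, x ∈ Ab u ∩ PL l}`, which is small with constant `KK * M3` (`Sm.iUnion_lt`: for every `l < KK` the set `Ab u ∩ PL l` is small, otherwise `u ∈ VL l`). And `As u ⊆ (As u \ Ab u) ∪ Ab u` (`near_As_Ab`). -/
theorem lo_small (S : Sys r lt s t k M W H) {i : ℕ} (hi : i < M) {u : V} (hu : u ∈ Big s t M W (H i))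
    (hno : ∀ l < KK s t M, u ∉ VL r s t k M W (H i) l) {X : Set V}
    (hX : ∀ x ∈ X, x ∈ W ∧ ¬ Rich r s t k M W (H i) x) :
    Sm r t k (th t k (2 * pp s t M - 1) (2 * t - 1) + KK s t M * M3 s t k M) (As r s t M (H i) u ∩ X) := by
  have h1 := (near_As_Ab S hi hu).1
  have h2 := Sm.iUnion_lt S.t1 (KK s t M) (fun l => Ab r s t M (H i) u ∩ PL r s t k M W (H i) l)
    (m := M3 s t k M) (k := k) (r := r) (fun l hl => by
      by_contra hc
      exact hno l hl ⟨hu, hc⟩)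
  refine (h1.union h2).mono_set ?_
  rintro x ⟨hx, hxX⟩
  by_cases hxb : x ∈ Ab r s t M (H i) u
  · obtain ⟨l, hl, hl2⟩ := poor_of_not_rich S.t1 (hX x hxX).1 (hX x hxX).2
    exact Or.inr ⟨l, hl, hxb, hl2⟩
  · exact Or.inl ⟨hx, hxb⟩

end Pool.Agent.Lib.MP_b0c2b5_co.C5
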