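import Pool.Agent.Lib.MP_b0c2b5_co.C5.Defs

/-! Clusters in homogeneous sets. -/

set_option autoImplicit false

namespace Pool.Agent.Lib.MP_b0c2b5_co.C5

open Finset LS
open scoped Classical

universe u

variable {V : Type u} {r lt : V → V → Prop} {t k : ℕ}

/-- PROOF. An `x ∈ Ap r p C \ Ap r p' C'` has at least `t` parents in `C` (`t ≤ p`), let `A ⊆ C` be a set of `t` of them; fewer than `p'` elements of `C'` are parents of `x`, so at least `C'.card - (p' - 1) ≥ t`
elements are not; let `B ⊆ C'` be a set of `t` of them. Then `x ∈ dN r A B`, and `A`, `B` are disjoint. So the difference is contained in the union over the pairs `(A, B)` in `C.powerset ×ˢ C'.powerset` with `A.card = B.card = t` and disjoint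
of `dN r A B` (each is `k`-small with constant `(k+1) * t` by `hH`); `Sm.biUnion` (use `f (A,B) = dN r A B` for these pairs and `∅` for the other pairs) and `card_powerset`: `2 ^ C.card * 2 ^ C'.card`, `th`. -/
theorem ap_diff (ht : 1 ≤ t) {H : Set V} (hH : Hom r t k H) {C C' : Finset V} (hC : (C : Set V) ⊆ H)
    (hC' : (C' : Set V) ⊆ H) {p p' : ℕ} (hp : t ≤ p) (hp' : t + p' ≤ C'.card + 1) :
    Sm r t k (th t k C.card C'.card) (Ap r p C \ Ap r p' C') := by
  have h1 := Sm.biUnion (k := k) (r := r) (m := (k + 1) * t) ht (C.powerset ×ˢ C'.powerset)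
    (fun q : Finset V × Finset V =>
      if q.1.card = t ∧ q.2.card = t ∧ Disjoint q.1 q.2 then dN r q.1 q.2 else ∅) ?_
  · rw [Finset.card_product, Finset.card_powerset, Finset.card_powerset, ← pow_add] at h1
    refine Sm.mono_set h1 ?_
    rintro x ⟨hx, hx'⟩
    have hx1 : t ≤ (C.filter (fun c => r c x)).card := le_trans hp hx
    obtain ⟨A, hA, hAc⟩ := Finset.exists_subset_card_eq hx1
    have hx2 : (C'.filter (fun c => r c x)).card < p' := not_le.1 hx'
    have hx3 := Finset.card_filter_add_card_filter_not (s := C') (fun c => r c x)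
    obtain ⟨B, hB, hBc⟩ := Finset.exists_subset_card_eq
      (show t ≤ (C'.filter (fun c => ¬ r c x)).card by omega)
    have hdis : Disjoint A B := by
      rw [Finset.disjoint_left]
      intro a ha hb
      exact (Finset.mem_filter.1 (hB hb)).2 (Finset.mem_filter.1 (hA ha)).2
    refine ⟨(A, B), Finset.mem_product.2 ⟨Finset.mem_powerset.2 (hA.trans (Finset.filter_subset _ _)),
      Finset.mem_powerset.2 (hB.trans (Finset.filter_subset _ _))⟩, ?_⟩
    show x ∈ (if A.card = t ∧ B.card = t ∧ Disjoint A B then dN r A B else (∅ : Set V))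
    rw [if_pos ⟨hAc, hBc, hdis⟩]
    exact ⟨fun a ha => (Finset.mem_filter.1 (hA ha)).2, fun b hb => (Finset.mem_filter.1 (hB hb)).2⟩
  · rintro ⟨A, B⟩ hAB
    obtain ⟨hA, hB⟩ := Finset.mem_product.1 hAB
    show Sm r t k ((k + 1) * t) (if A.card = t ∧ B.card = t ∧ Disjoint A B then dN r A B else (∅ : Set V))
    by_cases hc : A.card = t ∧ B.card = t ∧ Disjoint A B
    · rw [if_pos hc]
      exact hH A B ((Finset.coe_subset.2 (Finset.mem_powerset.1 hA)).trans hC)
        ((Finset.coe_subset.2 (Finset.mem_powerset.1 hB)).trans hC') hc.2.2 hc.1 hc.2.1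
    · rw [if_neg hc]
      exact Sm.empty ht _

/-- Two small clusters in the same homogeneous set. PROOF: `ap_diff` twice. -/
theorem near_of_clus (ht : 1 ≤ t) {H : Set V} (hH : Hom r t k H) {C C' : Finset V} (hC : (C : Set V) ⊆ H)
    (hC' : (C' : Set V) ⊆ H) (hc : C.card = 2 * t - 1) (hc' : C'.card = 2 * t - 1) :
    Near r t k (th t k (2*t-1) (2*t-1)) (Ap r t C) (Ap r t C') := by
  constructor
  · have h1 := ap_diff ht hH hC hC' (le_refl t) (p' := t) (by omega)
    rw [hc, hc'] at h1
    exact h1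
  · have h1 := ap_diff ht hH hC' hC (le_refl t) (p' := t) (by omega)
    rw [hc, hc'] at h1
    exact h1

/-- A small and a large cluster in the same homogeneous set. PROOF: `ap_diff` twice (`th t k a b = th t k b a`). -/
theorem near_of_clus_big (ht : 1 ≤ t) {H : Set V} (hH : Hom r t k H) {C C' : Finset V} (hC : (C : Set V) ⊆ H)
    (hC' : (C' : Set V) ⊆ H) {p : ℕ} (hp : t ≤ p) (hc : C.card = 2 * t - 1) (hc' : C'.card = 2 * p - 1) :
    Near r t k (th t k (2*p-1) (2*t-1)) (Ap r t C) (Ap r p C') := by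
  constructor
  · have h1 := ap_diff ht hH hC hC' (le_refl t) (p' := p) (by omega)
    rw [hc, hc'] at h1
    have h2 : th t k (2*t-1) (2*p-1) = th t k (2*p-1) (2*t-1) := by
      unfold th
      rw [Nat.add_comm]
    rw [h2] at h1
    exact h1
  · have h1 := ap_diff ht hH hC' hC hp (p' := t) (by omega)
    rw [hc, hc'] at h1
    exact h1

/-- Two majorities of `C` meet. PROOF. Let `x` be in both sets; there is `w ∈ U` with `r w x` (`1 ≤ q`); `w ∈ Ap r p C`. The sets of the parents in `C` of `w` and of `x` have at least `p` elements each and `C.card < 2 * p`, so they have a common element `c`: `r c x`, `r c w`, `r w x`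
against `h.sf c x w`. -/
theorem ap_disjoint (h : HO r lt) {C U : Finset V} {p q : ℕ} (hq : 1 ≤ q) (hC : C.card < 2 * p)
    (hU : (U : Set V) ⊆ Ap r p C) (x : V) (hx : x ∈ Ap r q U) : x ∉ Ap r p C := by
  intro hxC
  have h1 : 0 < (U.filter (fun c => r c x)).card := lt_of_lt_of_le (by omega : 0 < q) hx
  obtain ⟨w, hw⟩ := Finset.card_pos.1 h1
  obtain ⟨hwU, hwx⟩ := Finset.mem_filter.1 hw
  have hwC : p ≤ (C.filter (fun c => r c w)).card := hU hwU
  have hxC' : p ≤ (C.filter (fun c => r c x)).card := hxC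
  have hnd : ¬ Disjoint (C.filter (fun c => r c w)) (C.filter (fun c => r c x)) := by
    intro hd
    have h2 := Finset.card_union_of_disjoint hd
    have h3 : (C.filter (fun c => r c w) ∪ C.filter (fun c => r c x)).card ≤ C.card :=
      Finset.card_le_card (Finset.union_subset (Finset.filter_subset _ _) (Finset.filter_subset _ _))
    omega
  obtain ⟨c, hc1, hc2⟩ := Finset.not_disjoint_iff.1 hnd
  have hcw := (Finset.mem_filter.1 hc1).2
  have hcx := (Finset.mem_filter.1 hc2).2
  exact h.sf c x w hcx (h.arc c w hcw) (h.arc w x hwx)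

/-- PROOF. `1 ≤ p`: the filter is nonempty. -/
theorem exists_parent {C : Finset V} {p : ℕ} (hp : 1 ≤ p) {x : V} (hx : x ∈ Ap r p C) : ∃ c ∈ C, r c x := by
  have h1 : 0 < (C.filter (fun c => r c x)).card := lt_of_lt_of_le (by omega : 0 < p) hx
  obtain ⟨c, hc⟩ := Finset.card_pos.1 h1
  exact ⟨c, (Finset.mem_filter.1 hc).1, (Finset.mem_filter.1 hc).2⟩

end Pool.Agent.Lib.MP_b0c2b5_co.C5
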