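import Pool.Agent.Lib.MP_b0c2b5_co.C5.Defs

/-! From `Cm` to `UpComb`. -/

set_option autoImplicit false

namespace Pool.Agent.Lib.MP_b0c2b5_co.C5

open Finset LS
open scoped Classical

universe u

variable {V : Type u} {r lt : V → V → Prop} {t k : ℕ}

private theorem CmUp_aux (h : HO r lt) (c : ℕ) : ∀ (v : V) (B : Set V), Cm r t c (ch r v) B →
    ∃ (p : ℕ → V) (Z : ℕ → Finset V), p 0 = v ∧ (∀ i, i + 1 < c + 1 → r (p i) (p (i+1))) ∧
      (∀ i < c + 1, (Z i).card = t ∧ ∀ z ∈ Z i, r (p i) z) ∧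
      (∀ i l, i < l → l < c + 1 → ∀ z ∈ Z i, ¬ r z (p l) ∧ ∀ z' ∈ Z l, ¬ r z z') ∧
      (∀ l, 1 ≤ l → l < c + 1 → p l ∉ B) ∧ (∀ l < c + 1, ∀ z ∈ Z l, z ∉ B) := by
  induction c with
  | zero =>
    rintro v B ⟨Z, hZ, hZ2⟩
    refine ⟨fun _ => v, fun _ => Z, rfl, ?_, ?_, ?_, ?_, ?_⟩
    · intro i hi; omega
    · intro i _
      exact ⟨hZ, fun z hz => (hZ2 hz).1⟩
    · intro i l hil hl; omega
    · intro l h1 h2; omega
    · intro l _ z hz
      exact (hZ2 hz).2
  | succ c ih =>
    rintro v B ⟨v', hv', Z₀, hZc, hZ0, _, hcm⟩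
    obtain ⟨p', Z', hp0, hp1, hZ1, hpair, hav, haz⟩ := ih v' (B ∪ uN r Z₀) hcm
    refine ⟨fun i => Nat.casesOn i v p', fun i => Nat.casesOn i Z₀ Z', rfl, ?_, ?_, ?_, ?_, ?_⟩
    · intro i hi
      cases i with
      | zero =>
        change r v (p' 0)
        rw [hp0]
        exact hv'.1
      | succ j => exact hp1 j (by omega)
    · intro i hi
      cases i with
      | zero => exact ⟨hZc, fun z hz => (hZ0 hz).1⟩
      | succ j => exact hZ1 j (by omega)
    · intro i l hil hl
      cases l with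
      | zero => omega
      | succ l =>
        cases i with
        | zero =>
          intro z hz
          change ¬ r z (p' l) ∧ ∀ z' ∈ Z' l, ¬ r z z'
          refine ⟨?_, fun z' hz' hr => ?_⟩
          · rcases Nat.eq_zero_or_pos l with h0 | h0
            · rw [h0, hp0]
              intro hr
              exact h.sf v v' z hv'.1 (h.arc _ _ (hZ0 hz).1) (h.arc _ _ hr)
            · intro hr
              exact hav l h0 (by omega) (Or.inr ⟨z, hz, hr⟩)
          · exact haz l (by omega) z' hz' (Or.inr ⟨z, hz, hr⟩)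
        | succ j => exact hpair j l (by omega) (by omega)
    · intro l h1 h2
      cases l with
      | zero => omega
      | succ l =>
        change p' l ∉ B
        rcases Nat.eq_zero_or_pos l with h0 | h0
        · rw [h0, hp0]
          exact hv'.2
        · exact fun hB => hav l h0 (by omega) (Or.inl hB)
    · intro l hl
      cases l with
      | zero => exact fun z hz => (hZ0 hz).2
      | succ l => exact fun z hz hB => haz l (by omega) z hz (Or.inl hB)

/-- PROOF. Induction on `c` for all `v`, `B` of the stronger statement: there are `p : ℕ → V`, `Z : ℕ → Finset V` with `p 0 = v`, `∀ i, i + 1 < c + 1 → r (p i) (p (i+1))`, `∀ i < c + 1, (Z i).card = t ∧ ∀ z ∈ Z i, r (p i) z`,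
`∀ i l, i < l → l < c + 1 → ∀ z ∈ Z i, ¬ r z (p l) ∧ ∀ z' ∈ Z l, ¬ r z z'`, and moreover all `p l` (`1 ≤ l < c + 1`) and all elements of `Z l` (`l < c + 1`) are not in `B`. For `c = 0`: `p = fun _ => v`, `Z 0` the leaves. For `c + 1`: `v'` and `Z₀` as in the
definition, `p'`, `Z'` from the induction hypothesis for `v'`, `B ∪ uN r Z₀`; `p = fun i => if i = 0 then v else p' (i - 1)`, the same for `Z`. Pairs `0 < l`: the vertices `p l` with `l ≥ 2` and the elements of `Z l`, `l ≥ 1`, are not in `uN r Z₀`. The pair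
`z ∈ Z₀`, `p 1 = v'`: `r v z`, `r v v'`, and `r z v'` is excluded by `h.sf v v' z` (`h.arc`). -/
theorem upComb_of_cm (h : HO r lt) (c : ℕ) (v : V) (hc : Cm r t c (ch r v) ∅) : UpComb r (c + 1) t := by
  obtain ⟨p, Z, _, h1, h2, h3, _, _⟩ := CmUp_aux h c v ∅ hc
  exact ⟨p, Z, h1, h2, h3⟩

end Pool.Agent.Lib.MP_b0c2b5_co.C5
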