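import Pool.Agent.Lib.MP_b0c2b5_co.LS.FinalA

/-!
All caterpillars in Hasse diagrams: definitions and elementary facts.

`r` is the covering relation (arcs, `r u v`: `v` is a child of `u`), `lt` the order, `HO r lt` (see `LS/Defs.lean`).

`Sm r t k m S`: the set `S` is `k`-small with constant `m`. For `k = 0`: at most `m` elements. For `k + 1`: `S` is covered by
`m` sets `H` which are `k`-homogeneous: for all disjoint `t`-subsets `A`, `B` of `H` the set of common children of `A` which
are not children of an element of `B` is `k`-small with constant `(k+1) * t`.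
-/

set_option autoImplicit false

namespace Pool.Agent.Lib.MP_b0c2b5_co.C5

open Finset LS
open scoped Classical

universe u

variable {V : Type u}

/-- the children of `u` -/
def ch (r : V → V → Prop) (u : V) : Set V := {x | r u x}

/-- the vertices with a parent in `Z` -/
def uN (r : V → V → Prop) (Z : Finset V) : Set V := {x | ∃ z ∈ Z, r z x}

/-- the common children of the elements of `A` which are not children of an element of `B` -/
def dN (r : V → V → Prop) (A B : Finset V) : Set V := {x | (∀ a ∈ A, r a x) ∧ ∀ b ∈ B, ¬ r b x}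

/-- homogeneous with respect to a notion `P` of small sets -/
def HomP (r : V → V → Prop) (t : ℕ) (P : Set V → Prop) (H : Set V) : Prop :=
  ∀ A B : Finset V, (A : Set V) ⊆ H → (B : Set V) ⊆ H → Disjoint A B → A.card = t → B.card = t → P (dN r A B)

/-- `S` is `k`-small with constant `m` -/
def Sm (r : V → V → Prop) (t : ℕ) : ℕ → ℕ → Set V → Prop
  | 0 => fun m S => ∃ T : Finset V, T.card ≤ m ∧ S ⊆ T
  | k + 1 => fun m S => ∃ H : ℕ → Set V, (∀ i < m, HomP r t (Sm r t k ((k+1)*t)) (H i)) ∧ ∀ x ∈ S, ∃ i < m, x ∈ H i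

/-- `H` is `k`-homogeneous -/
def Hom (r : V → V → Prop) (t k : ℕ) (H : Set V) : Prop := HomP r t (Sm r t k ((k+1)*t)) H

/-- the two sets differ by `k`-small sets -/
def Near (r : V → V → Prop) (t k m : ℕ) (A B : Set V) : Prop := Sm r t k m (A \ B) ∧ Sm r t k m (B \ A)

/-- `Cm r t c F B`: there is a comb with `c + 1` levels, `t` leaves in each level, first level in `F`, which avoids `B` (the
spine vertex above the first level is not part of it) -/
def Cm (r : V → V → Prop) (t : ℕ) : ℕ → Set V → Set V → Prop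
  | 0 => fun F B => ∃ Z : Finset V, Z.card = t ∧ (Z : Set V) ⊆ F \ B
  | c + 1 => fun F B => ∃ v ∈ F \ B, ∃ Z : Finset V, Z.card = t ∧ (Z : Set V) ⊆ F \ B ∧ v ∉ Z ∧
      Cm r t c (ch r v) (B ∪ uN r Z)

/-- the exponents of the structure theorem -/
def al : ℕ → ℕ
  | 0 => 0
  | c + 1 => 2 * al c + 2

/-- the vertices with at least `p` parents in `C` -/
def Ap (r : V → V → Prop) (p : ℕ) (C : Finset V) : Set V := {x | p ≤ (C.filter (fun c => r c x)).card}

/-- the constant for differences of sets `Ap` of homogeneous clusters of sizes `a` and `b` -/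
def th (t k a b : ℕ) : ℕ := 2 ^ (a + b) * ((k+1) * t)

/-! ### elementary facts -/

variable {r lt : V → V → Prop} {t k : ℕ}

theorem mem_ch {u x : V} : x ∈ ch r u ↔ r u x := Iff.rfl

theorem Sm.mono_set {m : ℕ} {S S' : Set V} (h : Sm r t k m S') (hS : S ⊆ S') : Sm r t k m S := by
  cases k with
  | zero =>
    obtain ⟨T, h1, h2⟩ := h
    exact ⟨T, h1, hS.trans h2⟩
  | succ k =>
    obtain ⟨H, h1, h2⟩ := h
    exact ⟨H, h1, fun x hx => h2 x (hS hx)⟩

theorem HomP.mono {P : Set V → Prop} {H H' : Set V} (h : HomP r t P H) (hH : H' ⊆ H) : HomP r t P H' :=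
  fun A B hA hB => h A B (hA.trans hH) (hB.trans hH)

theorem Hom.mono {H H' : Set V} (h : Hom r t k H) (hH : H' ⊆ H) : Hom r t k H' := HomP.mono h hH

theorem HomP.empty (ht : 1 ≤ t) (P : Set V → Prop) : HomP r t P ∅ := by
  intro A B hA _ _ hc _
  have : A = ∅ := by
    rw [← Finset.coe_eq_empty]
    exact Set.subset_eq_empty hA rfl
  rw [this] at hc
  simp at hc
  omega

theorem HomP.singleton (ht : 1 ≤ t) (P : Set V → Prop) (x : V) : HomP r t P {x} := by
  intro A B hA hB hd hc hc'
  exfalso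
  obtain ⟨a, ha⟩ := Finset.card_pos.1 (by omega : 0 < A.card)
  obtain ⟨b, hb⟩ := Finset.card_pos.1 (by omega : 0 < B.card)
  have h1 : a = x := hA ha
  have h2 : b = x := hB hb
  rw [h1] at ha
  rw [h2] at hb
  exact Finset.disjoint_left.1 hd ha hb

theorem Sm.mono_m (ht : 1 ≤ t) {m m' : ℕ} {S : Set V} (h : Sm r t k m S) (hm : m ≤ m') : Sm r t k m' S := by
  cases k with
  | zero =>
    obtain ⟨T, h1, h2⟩ := h
    exact ⟨T, h1.trans hm, h2⟩
  | succ k =>
    obtain ⟨H, h1, h2⟩ := h
    refine ⟨fun i => if i < m then H i else ∅, ?_, ?_⟩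
    · intro i _
      by_cases hi : i < m
      · simp only [hi, if_true]
        exact h1 i hi
      · simp only [hi, if_false]
        exact HomP.empty ht _
    · intro x hx
      obtain ⟨i, hi, hxi⟩ := h2 x hx
      refine ⟨i, by omega, ?_⟩
      simp only [hi, if_true]
      exact hxi

theorem Sm.union {m m' : ℕ} {S S' : Set V} (h : Sm r t k m S) (h' : Sm r t k m' S') :
    Sm r t k (m + m') (S ∪ S') := by
  cases k with
  | zero =>
    obtain ⟨T, h1, h2⟩ := h
    obtain ⟨T', h1', h2'⟩ := h'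
    refine ⟨T ∪ T', (Finset.card_union_le _ _).trans (Nat.add_le_add h1 h1'), ?_⟩
    rw [Finset.coe_union]
    exact Set.union_subset_union h2 h2'
  | succ k =>
    obtain ⟨H, h1, h2⟩ := h
    obtain ⟨H', h1', h2'⟩ := h'
    refine ⟨fun i => if i < m then H i else H' (i - m), ?_, ?_⟩
    · intro i hi
      by_cases h3 : i < m
      · simp only [h3, if_true]
        exact h1 i h3
      · simp only [h3, if_false]
        exact h1' _ (by omega)
    · rintro x (hx | hx)
      · obtain ⟨i, hi, hxi⟩ := h2 x hx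
        refine ⟨i, by omega, ?_⟩
        simp only [hi, if_true]
        exact hxi
      · obtain ⟨i, hi, hxi⟩ := h2' x hx
        refine ⟨m + i, by omega, ?_⟩
        have h3 : ¬ (m + i < m) := by omega
        simp only [h3, if_false, Nat.add_sub_cancel_left]
        exact hxi

theorem Sm.of_card (ht : 1 ≤ t) {m : ℕ} {S : Set V} (T : Finset V) (hT : T.card ≤ m) (hS : S ⊆ T) :
    Sm r t k m S := by
  cases k with
  | zero => exact ⟨T, hT, hS⟩
  | succ k =>
    rcases T.eq_empty_or_nonempty with h0 | ⟨x0, hx0⟩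
    · refine ⟨fun _ => ∅, fun _ _ => HomP.empty ht _, fun x hx => ?_⟩
      have h1 := hS hx
      rw [h0] at h1
      simp at h1
    · let e := T.equivFin
      refine ⟨fun i => if h : i < T.card then {(e.symm ⟨i, h⟩ : V)} else ∅, ?_, ?_⟩
      · intro i _
        by_cases h : i < T.card
        · simp only [h, dif_pos]
          exact HomP.singleton ht _ _
        · simp only [h, dif_neg, not_false_eq_true]
          exact HomP.empty ht _
      · intro x hx
        have hxT : x ∈ T := hS hx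
        refine ⟨(e ⟨x, hxT⟩ : ℕ), lt_of_lt_of_le (e ⟨x, hxT⟩).2 hT, ?_⟩
        simp only [Fin.is_lt, dif_pos, Fin.eta, Equiv.symm_apply_apply, Set.mem_singleton_iff]

theorem Sm.empty (ht : 1 ≤ t) (m : ℕ) : Sm r t k m ∅ :=
  Sm.of_card ht ∅ (by simp) (by simp)

theorem HomP.imp {P Q : Set V → Prop} {H : Set V} (h : HomP r t P H) (hPQ : ∀ S, P S → Q S) : HomP r t Q H :=
  fun A B hA hB hd hc hc' => hPQ _ (h A B hA hB hd hc hc')

/-- a `k`-small set is `(k+1)`-small -/
theorem Sm.succ (ht : 1 ≤ t) {m : ℕ} {S : Set V} (h : Sm r t k m S) : Sm r t (k + 1) m S := by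
  induction k generalizing m S with
  | zero =>
    obtain ⟨T, h1, h2⟩ := h
    exact Sm.of_card ht T h1 h2
  | succ k ih =>
    obtain ⟨H, h1, h2⟩ := h
    refine ⟨H, fun i hi => (h1 i hi).imp fun S' hS' => ?_, h2⟩
    exact (ih hS').mono_m ht (Nat.mul_le_mul_right t (by omega))

theorem Sm.le (ht : 1 ≤ t) {m k' : ℕ} {S : Set V} (h : Sm r t k m S) (hk : k ≤ k') : Sm r t k' m S := by
  induction hk with
  | refl => exact h
  | step _ ih => exact ih.succ ht

theorem Hom.succ (ht : 1 ≤ t) {H : Set V} (h : Hom r t k H) : Hom r t (k + 1) H :=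
  h.imp fun S' hS' => (hS'.succ ht).mono_m ht (Nat.mul_le_mul_right t (by omega))

theorem Hom.le (ht : 1 ≤ t) {k' : ℕ} {H : Set V} (h : Hom r t k H) (hk : k ≤ k') : Hom r t k' H := by
  induction hk with
  | refl => exact h
  | step _ ih => exact ih.succ ht

/-- a `k`-homogeneous set is `(k+1)`-small with constant 1 -/
theorem Hom.sm {H : Set V} (h : Hom r t k H) : Sm r t (k + 1) 1 H :=
  ⟨fun _ => H, fun _ _ => h, fun x hx => ⟨0, Nat.one_pos, hx⟩⟩

/-- a finite union of small sets -/
theorem Sm.biUnion {ι : Type*} (ht : 1 ≤ t) (s : Finset ι) (f : ι → Set V) {m : ℕ}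
    (h : ∀ i ∈ s, Sm r t k m (f i)) : Sm r t k (s.card * m) {x | ∃ i ∈ s, x ∈ f i} := by
  induction s using Finset.induction_on with
  | empty => exact (Sm.empty ht _).mono_set (by rintro x ⟨i, hi, _⟩; simp at hi)
  | insert a s ha ih =>
    have h1 := (ih fun i hi => h i (Finset.mem_insert_of_mem hi)).union (h a (Finset.mem_insert_self a s))
    rw [Finset.card_insert_of_notMem ha, Nat.add_mul, Nat.one_mul]
    refine h1.mono_set ?_
    rintro x ⟨i, hi, hx⟩
    rcases Finset.mem_insert.1 hi with h2 | h2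
    · rw [h2] at hx
      exact Or.inr hx
    · exact Or.inl ⟨i, h2, hx⟩

/-- a union indexed by the numbers less than `n` -/
theorem Sm.iUnion_lt (ht : 1 ≤ t) (n : ℕ) (f : ℕ → Set V) {m : ℕ}
    (h : ∀ i < n, Sm r t k m (f i)) : Sm r t k (n * m) {x | ∃ i < n, x ∈ f i} := by
  have h1 := Sm.biUnion ht (Finset.range n) f (fun i hi => h i (Finset.mem_range.1 hi))
  rw [Finset.card_range] at h1
  exact h1.mono_set (by rintro x ⟨i, hi, hx⟩; exact ⟨i, Finset.mem_range.2 hi, hx⟩)

/-- a set which is not small contains a large finite set -/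
theorem exists_finset_of_not_sm [Finite V] (ht : 1 ≤ t) {m : ℕ} {S : Set V} (h : ¬ Sm r t k m S) :
    ∃ T : Finset V, T.card = m + 1 ∧ (T : Set V) ⊆ S := by
  have hfin : S.Finite := Set.toFinite S
  have h1 : m + 1 ≤ hfin.toFinset.card := by
    by_contra hc
    exact h (Sm.of_card ht hfin.toFinset (by omega) (by simp))
  obtain ⟨T, hT, hTc⟩ := Finset.exists_subset_card_eq h1
  exact ⟨T, hTc, fun x hx => by simpa using hT hx⟩

theorem Near.symm {m : ℕ} {A B : Set V} (h : Near r t k m A B) : Near r t k m B A := ⟨h.2, h.1⟩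

theorem Near.refl (ht : 1 ≤ t) (m : ℕ) (A : Set V) : Near r t k m A A := by
  constructor <;> exact (Sm.empty ht _).mono_set (by simp)

theorem Near.trans {m m' : ℕ} {A B C : Set V} (h : Near r t k m A B) (h' : Near r t k m' B C) :
    Near r t k (m + m') A C := by
  constructor
  · refine (h.1.union h'.1).mono_set ?_
    rintro x ⟨hx, hx'⟩
    by_cases hB : x ∈ B
    · exact Or.inr ⟨hB, hx'⟩
    · exact Or.inl ⟨hx, hB⟩
  · refine (h.2.union h'.2).mono_set ?_
    rintro x ⟨hx, hx'⟩
    by_cases hB : x ∈ B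
    · exact Or.inl ⟨hB, hx'⟩
    · exact Or.inr ⟨hx, hB⟩

theorem Near.mono (ht : 1 ≤ t) {m m' : ℕ} {A B : Set V} (h : Near r t k m A B) (hm : m ≤ m') :
    Near r t k m' A B := ⟨h.1.mono_m ht hm, h.2.mono_m ht hm⟩

/-- a comb with the first level in a larger set, avoiding a smaller set -/
theorem Cm.mono {c : ℕ} {F F' B B' : Set V} (h : Cm r t c F B) (hF : F ⊆ F') (hB : B' ⊆ B) : Cm r t c F' B' := by
  induction c generalizing F F' B B' with
  | zero =>
    obtain ⟨Z, hZ, hZ2⟩ := h
    exact ⟨Z, hZ, hZ2.trans (Set.sdiff_subset_sdiff hF hB)⟩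
  | succ c ih =>
    obtain ⟨v, hv, Z, hZ, hZ2, hvZ, h3⟩ := h
    exact ⟨v, Set.sdiff_subset_sdiff hF hB hv, Z, hZ, hZ2.trans (Set.sdiff_subset_sdiff hF hB), hvZ,
      ih h3 (Set.Subset.refl _) (Set.union_subset_union_left _ hB)⟩

end Pool.Agent.Lib.MP_b0c2b5_co.C5
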