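import Pool.Agent.Lib.MP_b0c2b5_co.C5.Defs

/-! Colouring of digraphs with bounded out-degree modulo an equivalence relation. -/

set_option autoImplicit false

namespace Pool.Agent.Lib.MP_b0c2b5_co.C5

open Finset LS
open scoped Classical

universe u

/-- A finite digraph without loops in which the out-neighbours of every vertex are in a set with at most `d` elements is
`(2d+1)`-colourable.

PROOF (compare `three_col` in `C4/Col.lean`, which is the case `d = 1`). Claim: for every finset `S` there is `c : Q → ℕ` with values `< 2d+1` which is proper for the arcs inside `S`; induction on the number of elements of `S`. For nonempty `S` some `a ∈ S` has at most `d` in-neighbours in `S`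
(`a` itself is not one): the number of pairs `(x, y) ∈ S ×ˢ S` with `g x y` is at most `d * S.card`, so some `y` has at most `d` in-neighbours in `S` (`Finset.exists_le_of_sum_le` or by contradiction with `Finset.card_nsmul_le_sum`). Colour `S.erase a`, then give `a` a colour
which is not used by its at most `2d` neighbours in `S` (`Finset.exists_mem_notMem_of_card_lt_card` for `range (2d+1)`). -/
theorem deg_col {Q : Type u} [Finite Q] (g : Q → Q → Prop) (d : ℕ)
    (h1 : ∀ a, ∃ T : Finset Q, T.card ≤ d ∧ ∀ b, g a b → b ∈ T) (h2 : ∀ a, ¬ g a a) :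
    ∃ c : Q → ℕ, (∀ a, c a < 2 * d + 1) ∧ ∀ a b, g a b → c a ≠ c b := by
  have key : ∀ (n : ℕ) (S : Finset Q), S.card = n →
      ∃ c : Q → ℕ, (∀ a, c a < 2 * d + 1) ∧ ∀ a ∈ S, ∀ b ∈ S, g a b → c a ≠ c b := by
    intro n
    induction n with
    | zero =>
      intro S hS
      rw [Finset.card_eq_zero] at hS
      subst hS
      exact ⟨fun _ => 0, fun _ => Nat.succ_pos _, fun a ha => absurd ha (Finset.notMem_empty a)⟩
    | succ n ih =>
      intro S hS
      have hout : ∀ a, (S.filter (fun b => g a b)).card ≤ d := by
        intro a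
        obtain ⟨T, hT, hT2⟩ := h1 a
        refine le_trans (Finset.card_le_card ?_) hT
        intro b hb
        exact hT2 b (Finset.mem_filter.1 hb).2
      have hex : ∃ b ∈ S, (S.filter (fun a => g a b)).card ≤ d := by
        by_contra hcon
        push Not at hcon
        have hsum := Finset.sum_card_bipartiteAbove_eq_sum_card_bipartiteBelow (s := S) (t := S) g
        have hA : ∑ a ∈ S, (Finset.bipartiteAbove g S a).card ≤ S.card * d :=
          Finset.sum_le_card_nsmul S _ d (fun a _ => hout a)
        have hB : S.card * (d + 1) ≤ ∑ b ∈ S, (Finset.bipartiteBelow g S b).card :=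
          Finset.card_nsmul_le_sum S _ (d + 1) (fun b hb => hcon b hb)
        have hC : S.card * (d + 1) ≤ S.card * d := hB.trans (hsum ▸ hA)
        rw [mul_add, mul_one] at hC
        omega
      obtain ⟨b, hb, hin⟩ := hex
      obtain ⟨c, hc, hc2⟩ := ih (S.erase b) (by rw [Finset.card_erase_of_mem hb]; omega)
      have himg : (((S.filter (fun a => g a b)) ∪ (S.filter (fun d => g b d))).image c).card <
          2 * d + 1 := by
        refine lt_of_le_of_lt Finset.card_image_le ?_
        refine lt_of_le_of_lt (Finset.card_union_le _ _) ?_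
        have := hout b
        omega
      obtain ⟨m, hm, hm'⟩ : ∃ m ∈ Finset.range (2 * d + 1),
          m ∉ ((S.filter (fun a => g a b)) ∪ (S.filter (fun d => g b d))).image c := by
        by_contra hcon
        push Not at hcon
        have := Finset.card_le_card (fun m hm => hcon m hm : Finset.range (2 * d + 1) ⊆
          ((S.filter (fun a => g a b)) ∪ (S.filter (fun d => g b d))).image c)
        rw [Finset.card_range] at this
        omega
      have hne : ∀ a ∈ S, (g a b ∨ g b a) → m ≠ c a := by
        intro a ha hg hma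
        apply hm'
        rw [Finset.mem_image]
        refine ⟨a, ?_, hma.symm⟩
        rw [Finset.mem_union, Finset.mem_filter, Finset.mem_filter]
        rcases hg with hg | hg
        · exact Or.inl ⟨ha, hg⟩
        · exact Or.inr ⟨ha, hg⟩
      refine ⟨Function.update c b m, ?_, ?_⟩
      · intro a
        by_cases hab : a = b
        · subst hab
          rw [Function.update_self]
          exact Finset.mem_range.1 hm
        · rw [Function.update_of_ne hab]
          exact hc a
      · intro x hx y hy hxy
        by_cases hxb : x = b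
        · by_cases hyb : y = b
          · subst hxb; subst hyb
            exact absurd hxy (h2 _)
          · subst hxb
            rw [Function.update_self, Function.update_of_ne hyb]
            exact hne y hy (Or.inr hxy)
        · by_cases hyb : y = b
          · subst hyb
            rw [Function.update_self, Function.update_of_ne hxb]
            exact (hne x hx (Or.inl hxy)).symm
          · rw [Function.update_of_ne hxb, Function.update_of_ne hyb]
            exact hc2 x (Finset.mem_erase.2 ⟨hxb, hx⟩) y (Finset.mem_erase.2 ⟨hyb, hy⟩) hxy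
  have := Fintype.ofFinite Q
  obtain ⟨c, hc, hc2⟩ := key _ Finset.univ rfl
  exact ⟨c, hc, fun a b hab => hc2 a (Finset.mem_univ a) b (Finset.mem_univ b) hab⟩

/-- The quotient version: `e` is an equivalence relation on `W`, the arcs leaving the class of `x` get at most `d` labels, and arcs with the same label end in the same
class.

PROOF (compare `three_col_quot` in `C4/Col.lean`). Let `s` be the setoid on `W` given by `e`, `Q = Quotient s`, and let `G a b` mean that `g x y` for some `x` in the class `a` and `y` in the class `b`. No loops by `h2` (if `g x y` and `e x y`). For a class `a = [x]` take `L`, `f` from `h1 x`; for every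
label `i ∈ L` there is at most one class `b` which contains a `y` with `g x' y`, `e x x'`, `f y = i`; so the out-neighbours of `a` are in the image of `L` under a choice function. `deg_col`, and colour `x ∈ W` by its class. -/
theorem quot_col {V : Type u} {ι : Type u} [Finite V] (g e : V → V → Prop) (W : Set V) (d : ℕ)
    (er : ∀ x ∈ W, e x x) (es : ∀ x ∈ W, ∀ y ∈ W, e x y → e y x)
    (et : ∀ x ∈ W, ∀ y ∈ W, ∀ z ∈ W, e x y → e y z → e x z)
    (h1 : ∀ x ∈ W, ∃ (L : Finset ι) (f : V → ι), L.card ≤ d ∧
      (∀ x' ∈ W, e x x' → ∀ y ∈ W, g x' y → f y ∈ L) ∧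
      ∀ x' ∈ W, ∀ x'' ∈ W, e x x' → e x x'' → ∀ y ∈ W, ∀ y' ∈ W, g x' y → g x'' y' → f y = f y' → e y y')
    (h2 : ∀ x ∈ W, ∀ y ∈ W, g x y → ¬ e x y) : ColOn g W (2 * d + 1) := by
  let s : Setoid W :=
    { r := fun x y => e x.1 y.1
      iseqv := ⟨fun x => er x.1 x.2, fun {x y} h => es x.1 x.2 y.1 y.2 h,
        fun {x y z} h h' => et x.1 x.2 y.1 y.2 z.1 z.2 h h'⟩ }
  let g' : Quotient s → Quotient s → Prop := fun p q =>
    ∃ x y : W, Quotient.mk s x = p ∧ Quotient.mk s y = q ∧ g x.1 y.1
  have hg1 : ∀ a, ∃ T : Finset (Quotient s), T.card ≤ d ∧ ∀ b, g' a b → b ∈ T := by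
    intro a
    obtain ⟨x, hx⟩ := Quotient.exists_rep a
    obtain ⟨L, f, hL, hf, hfe⟩ := h1 x.1 x.2
    have hk : ∀ i : ι, ∃ b : Quotient s, ∀ (x' y : W), Quotient.mk s x' = a → g x'.1 y.1 →
        f y.1 = i → Quotient.mk s y = b := by
      intro i
      by_cases hi : ∃ x' y : W, Quotient.mk s x' = a ∧ g x'.1 y.1 ∧ f y.1 = i
      · obtain ⟨x', y, hx', hxy, hfy⟩ := hi
        refine ⟨Quotient.mk s y, ?_⟩
        intro x'' y' hx'' hxy' hfy'
        refine Quotient.sound ?_
        have e1 : e x.1 x''.1 := Quotient.exact (hx.trans hx''.symm)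
        have e2 : e x.1 x'.1 := Quotient.exact (hx.trans hx'.symm)
        exact hfe x''.1 x''.2 x'.1 x'.2 e1 e2 y'.1 y'.2 y.1 y.2 hxy' hxy (hfy'.trans hfy.symm)
      · refine ⟨a, ?_⟩
        intro x' y hx' hxy hfy
        exact absurd ⟨x', y, hx', hxy, hfy⟩ hi
    choose k hk using hk
    refine ⟨L.image k, le_trans Finset.card_image_le hL, ?_⟩
    rintro b ⟨x', y, hx', hy, hxy⟩
    rw [Finset.mem_image]
    have e1 : e x.1 x'.1 := Quotient.exact (hx.trans hx'.symm)
    refine ⟨f y.1, hf x'.1 x'.2 e1 y.1 y.2 hxy, ?_⟩
    rw [← hy]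
    exact (hk (f y.1) x' y hx' hxy rfl).symm
  have hg2 : ∀ a, ¬ g' a a := by
    rintro a ⟨x, y, hx, hy, hxy⟩
    have hxx : e x.1 y.1 := Quotient.exact (hx.trans hy.symm)
    exact h2 x.1 x.2 y.1 y.2 hxy hxx
  obtain ⟨c, hc, hc2⟩ := deg_col g' d hg1 hg2
  refine ⟨fun v => if h : v ∈ W then c (Quotient.mk s ⟨v, h⟩) else 0, ?_, ?_⟩
  · intro v hv
    simp only [hv, dif_pos]
    exact hc _
  · intro x hx y hy hxy
    simp only [hx, hy, dif_pos]
    exact hc2 _ _ ⟨⟨x, hx⟩, ⟨y, hy⟩, rfl, rfl, hxy⟩

end Pool.Agent.Lib.MP_b0c2b5_co.C5
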