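import Pool.Agent.Lib.MP_b0c2b5_co.C5.Anchor
import Pool.Agent.Lib.MP_b0c2b5_co.C5.Quot

/-! The quotient colouring of `VL l`. -/

set_option autoImplicit false

namespace Pool.Agent.Lib.MP_b0c2b5_co.C5

open Finset LS
open scoped Classical

universe u

variable {V : Type u} [Fintype V] {r lt : V → V → Prop} {s t k M : ℕ} {W : Set V} {H : ℕ → V → Set V}

/-- Two vertices with clusters in a common homogeneous set are near.

PROOF. `near_As` for `y` and `D`, `near_of_clus` for `D`, `D'` in `G`, `near_As` for `y'` and `D'`; `Near.trans`, `m1 = 3 * th`. -/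
theorem near_of_common (S : Sys r lt s t k M W H) {i : ℕ} (hi : i < M) {y y' : V}
    (hy : y ∈ Big s t M W (H i)) (hy' : y' ∈ Big s t M W (H i)) {G : Set V} (hG : Hom r t k G)
    {D D' : Finset V} (hD : D.card = 2 * t - 1) (hD' : D'.card = 2 * t - 1) (h1 : (D : Set V) ⊆ H i y)
    (h1' : (D' : Set V) ⊆ H i y') (h2 : (D : Set V) ⊆ G) (h2' : (D' : Set V) ⊆ G) :
    nr r s t k M (H i) (m1 t k) y y' := by
  have e1 := near_As S hi hy h1 hD
  have e2 := near_of_clus S.t1 hG h2 h2' hD hD'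
  have e3 := (near_As S hi hy' h1' hD').symm
  have e4 := (e1.trans e2).trans e3
  refine e4.mono S.t1 ?_
  unfold m1
  omega

/-- The label of an arc `x' → y` of the quotient digraph, where `x'` is near to `x`.

PROOF. `As x' \ As x` is small with constant `2 * (8^l * m1) ≤ 2 * (8^KK * m1)` (`hn`), so `T' = H i y ∩ As x' ∩ As x` is not small with constant `2 * t * M * (2 * t) + th ...` (otherwise `H i y ∩ As x'` would be `ms`-small, `Sm.union`). `exists_finset_of_not_sm`: a finset `T ⊆ T'` with more than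
`2 * t * M * (2 * t)` elements. Every `z ∈ T` has a parent `c ∈ Cs x` (`exists_parent`, `z ∈ As x = Ap t (Cs x)`), `c ∈ H i x ⊆ W` (`Cs_spec`, `S.sub`), and `z ∈ H i y ⊆ W`, so `z ∈ H j c` for some `j < M` (`S.cov c`). There are at most `(2 * t - 1) * M` pairs `(c, j)`; pigeonhole:
one pair for at least `2 * t` elements of `T`. -/
theorem exists_label (S : Sys r lt s t k M W H) {i : ℕ} (hi : i < M) {l : ℕ} (hl : l < KK s t M) {x x' y : V}
    (hx : x ∈ Big s t M W (H i)) (hy : y ∈ Big s t M W (H i))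
    (hn : nr r s t k M (H i) (2 * (8 ^ l * m1 t k)) x x')
    (hg : ¬ Sm r t k (ms s t k M) (H i y ∩ As r s t M (H i) x')) :
    ∃ p ∈ (Cs s t M (H i) x) ×ˢ (Finset.range M), ∃ D : Finset V, D.card = 2 * t - 1 ∧ (D : Set V) ⊆ H i y ∧
      (D : Set V) ⊆ H p.2 p.1 := by
  have ht := S.t1
  have hpow : 8 ^ l ≤ 8 ^ KK s t M := Nat.pow_le_pow_right (by norm_num) hl.le
  have hmul : 8 ^ l * m1 t k ≤ 8 ^ KK s t M * m1 t k := Nat.mul_le_mul_right _ hpow
  have hT : ¬ Sm r t k ((2 * t * M) * (2 * t)) (H i y ∩ As r s t M (H i) x' ∩ As r s t M (H i) x) := by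
    intro hsm
    apply hg
    have h1 := hsm.union hn.2
    have h2 := h1.mono_m ht (m' := ms s t k M) (by unfold ms; omega)
    refine h2.mono_set ?_
    rintro z ⟨hz1, hz2⟩
    by_cases hz3 : z ∈ As r s t M (H i) x
    · exact Or.inl ⟨⟨hz1, hz2⟩, hz3⟩
    · exact Or.inr ⟨hz2, hz3⟩
  obtain ⟨T, hTc, hTs⟩ := exists_finset_of_not_sm ht hT
  obtain ⟨hCc, hCs⟩ := Cs_spec (W := W) ht hx
  have hex : ∀ z ∈ T, ∃ p ∈ (Cs s t M (H i) x) ×ˢ (Finset.range M), z ∈ H p.2 p.1 := by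
    intro z hz
    have hz' := hTs hz
    obtain ⟨c, hc, hcz⟩ := exists_parent ht hz'.2
    have hcH : c ∈ H i x := hCs hc
    have hcW : c ∈ W := (S.sub x hx.1 i hi c hcH).2
    have hzW : z ∈ W := (S.sub y hy.1 i hi z hz'.1.1).2
    obtain ⟨j, hj, hzj⟩ := S.cov c hcW z hzW hcz
    exact ⟨(c, j), Finset.mem_product.2 ⟨hc, Finset.mem_range.2 hj⟩, hzj⟩
  have hne : Nonempty V := ⟨y⟩
  choose! f hf1 hf2 using hex
  have hcard : ((Cs s t M (H i) x) ×ˢ (Finset.range M)).card * (2 * t - 1) < T.card := by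
    rw [Finset.card_product, hCc, Finset.card_range, hTc]
    have h1 : (2 * t - 1) * M ≤ 2 * t * M := Nat.mul_le_mul_right _ (by omega)
    have h2 : (2 * t - 1) * M * (2 * t - 1) ≤ 2 * t * M * (2 * t) := Nat.mul_le_mul h1 (by omega)
    omega
  obtain ⟨p, hp, hpc⟩ := Finset.exists_lt_card_fiber_of_mul_lt_card_of_maps_to hf1 hcard
  obtain ⟨D, hD, hDc⟩ := Finset.exists_subset_card_eq hpc.le
  refine ⟨p, hp, D, hDc, fun z hz => ?_, fun z hz => ?_⟩
  · have h1 := hD hz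
    rw [Finset.mem_filter] at h1
    exact (hTs h1.1).1.1
  · have h1 := hD hz
    rw [Finset.mem_filter] at h1
    have h2 := hf2 z h1.1
    rw [h1.2] at h2
    exact h2

/-- No loops in the quotient digraph.

PROOF. Suppose `nr x y`. There is a finset `D ⊆ H i y ∩ As x` with `2 * t - 1` elements (`exists_finset_of_not_sm`, `ms ≥ (2*t*M)*(2*t) ≥ 2 * t - 1` since `M ≥ 1`). `Ap r t D` is disjoint from `As x = Ap t (Cs x)` (`ap_disjoint`, `Cs_spec`), so
`As x ⊆ (As x \ As y) ∪ (As y \ Ap r t D)`, small with constant `2 * (8^l * m1) + th ≤ ms` (`near_As` for `y`, `D`). So `H i y ∩ As x` is `ms`-small: contradiction. -/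
theorem no_loop (S : Sys r lt s t k M W H) {i : ℕ} (hi : i < M) {l : ℕ} (hl : l < KK s t M) {x y : V}
    (hx : x ∈ Big s t M W (H i)) (hy : y ∈ Big s t M W (H i))
    (hg : ¬ Sm r t k (ms s t k M) (H i y ∩ As r s t M (H i) x)) :
    ¬ nr r s t k M (H i) (2 * (8 ^ l * m1 t k)) x y := by
  intro hn
  have ht := S.t1
  have hpow : 8 ^ l ≤ 8 ^ KK s t M := Nat.pow_le_pow_right (by norm_num) hl.le
  have hmul : 8 ^ l * m1 t k ≤ 8 ^ KK s t M * m1 t k := Nat.mul_le_mul_right _ hpow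
  obtain ⟨T, hTc, hTs⟩ := exists_finset_of_not_sm ht hg
  have hM : 1 ≤ M := by omega
  have hbig : 2 * t - 1 ≤ T.card := by
    rw [hTc]
    have h1 : 1 * (2 * t) ≤ (2 * t * M) * (2 * t) :=
      Nat.mul_le_mul_right _ (Nat.mul_pos (by omega) (by omega))
    unfold ms
    omega
  obtain ⟨D, hD, hDc⟩ := Finset.exists_subset_card_eq hbig
  have hDy : (D : Set V) ⊆ H i y := fun z hz => (hTs (hD hz)).1
  have hDx : (D : Set V) ⊆ As r s t M (H i) x := fun z hz => (hTs (hD hz)).2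
  obtain ⟨hCc, hCs⟩ := Cs_spec (W := W) ht hx
  have hdis := ap_disjoint S.ho (C := Cs s t M (H i) x) (U := D) (p := t) (q := t) ht (by omega) hDx
  have h1 := hn.1.union (near_As S hi hy hDy hDc).1
  apply hg
  have h2 := h1.mono_m ht (m' := ms s t k M) (by unfold ms; omega)
  refine h2.mono_set ?_
  rintro z ⟨_, hz2⟩
  by_cases hz3 : z ∈ As r s t M (H i) y
  · exact Or.inr ⟨hz3, fun hz4 => hdis z hz4 hz2⟩
  · exact Or.inl ⟨hz2, hz3⟩

/-- PROOF. `quot_col` with `e u v = nr (2 * (8^l * m1)) u v` (transitive on `VL l`: `Near.trans` gives `4 * (8^l * m1) ≤ 6 * (8^l * m1)`, then `anchor`), `ι = V × ℕ`, `d = 2 * t * M`, `L = Cs x ×ˢ range M` (`(2*t-1) * M ≤ 2*t*M`), `f y` = a label `p ∈ L` such that there is `D` with `D.card = 2*t-1`, `D ⊆ H i y`,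
`D ⊆ H p.2 p.1`, if there is one. `exists_label`; two vertices with the same label: `near_of_common` with `G = H p.2 p.1` (`S.hom`, `p.1 ∈ W`) gives `nr m1 y y'`, so `nr (6 * (8^l * m1)) y y'`, `anchor`. `no_loop`. -/
theorem kap_col (S : Sys r lt s t k M W H) {i : ℕ} (hi : i < M) {l : ℕ} (hl : l < KK s t M) :
    ColOn (fun u v => ¬ Sm r t k (ms s t k M) (H i v ∩ As r s t M (H i) u)) (VL r s t k M W (H i) l)
      (2 * (2 * t * M) + 1) := by
  have ht := S.t1
  have h8 : 1 ≤ 8 ^ l := Nat.one_le_pow _ _ (by norm_num)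
  have hmm : m1 t k ≤ 6 * (8 ^ l * m1 t k) := by
    have h1 : 1 * m1 t k ≤ 8 ^ l * m1 t k := Nat.mul_le_mul_right _ h8
    omega
  refine quot_col (ι := V × ℕ) (fun u v => ¬ Sm r t k (ms s t k M) (H i v ∩ As r s t M (H i) u))
    (fun u v => nr r s t k M (H i) (2 * (8 ^ l * m1 t k)) u v) (VL r s t k M W (H i) l) (2 * t * M)
    ?_ ?_ ?_ ?_ ?_
  · intro x _
    exact Near.refl ht _ _
  · intro x _ y _ h
    exact Near.symm h
  · intro x hx y _ z hz h1 h2
    refine anchor S hi hl hx hz ?_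
    exact (Near.trans h1 h2).mono ht (by omega)
  · intro x hx
    let Q : V → V × ℕ → Prop := fun y p => p ∈ (Cs s t M (H i) x) ×ˢ (Finset.range M) ∧
      ∃ D : Finset V, D.card = 2 * t - 1 ∧ (D : Set V) ⊆ H i y ∧ (D : Set V) ⊆ H p.2 p.1
    obtain ⟨hCc, hCs⟩ := Cs_spec (W := W) ht hx.1
    let f : V → V × ℕ := fun y => if h : ∃ p, Q y p then h.choose else (x, 0)
    have hf : ∀ x' ∈ VL r s t k M W (H i) l, nr r s t k M (H i) (2 * (8 ^ l * m1 t k)) x x' →
        ∀ y ∈ VL r s t k M W (H i) l, ¬ Sm r t k (ms s t k M) (H i y ∩ As r s t M (H i) x') →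
        Q y (f y) := by
      intro x' _ hn y hy hg
      have h : ∃ p, Q y p := by
        obtain ⟨p, hp, hD⟩ := exists_label S hi hl hx.1 hy.1 hn hg
        exact ⟨p, hp, hD⟩
      have h2 : f y = h.choose := dif_pos h
      rw [h2]
      exact h.choose_spec
    refine ⟨(Cs s t M (H i) x) ×ˢ (Finset.range M), f, ?_, ?_, ?_⟩
    · rw [Finset.card_product, hCc, Finset.card_range]
      exact Nat.mul_le_mul_right _ (by omega)
    · intro x' hx' hn y hy hg
      exact (hf x' hx' hn y hy hg).1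
    · intro x' hx' x'' hx'' hn hn' y hy y' hy' hg hg' heq
      obtain ⟨hp, D, hDc, hD1, hD2⟩ := hf x' hx' hn y hy hg
      obtain ⟨_, D', hDc', hD1', hD2'⟩ := hf x'' hx'' hn' y' hy' hg'
      rw [← heq] at hD2'
      rw [Finset.mem_product] at hp
      have hpH : (f y).1 ∈ H i x := hCs hp.1
      have hpW : (f y).1 ∈ W := (S.sub x hx.1.1 i hi _ hpH).2
      have hG := S.hom (f y).1 hpW (f y).2 (Finset.mem_range.1 hp.2)
      have h1 := near_of_common S hi hy.1 hy'.1 hG hDc hDc' hD1 hD1' hD2 hD2'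
      exact anchor S hi hl hy hy' (h1.mono ht hmm)
  · intro x hx y hy hg
    exact no_loop S hi hl hx.1 hy.1 hg

end Pool.Agent.Lib.MP_b0c2b5_co.C5
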