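import Pool.Agent.Lib.MP_b0c2b5_co.C5.Sys
import Pool.Agent.Lib.MP_b0c2b5_co.C5.CmUp

/-! Peeling: in a class in which `H i v ∩ As u` is always small there are out-combs. -/

set_option autoImplicit false

namespace Pool.Agent.Lib.MP_b0c2b5_co.C5

open Finset LS
open scoped Classical

universe u

variable {V : Type u} [Fintype V] {r lt : V → V → Prop} {s t k M : ℕ} {W : Set V} {H : ℕ → V → Set V}

/-- The vertices with `t` parents in a reservoir `R ⊆ H i v`.

PROOF. `Ap r t R ⊆ (Ap r t R \ As v) ∪ As v`; the first set is small by `ap_diff` (`C = R`, `C' = Cs v`, both in `H i v`, `p = p' = t`), the intersection of the second with `H i u ∩ X` by `hX`. -/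
theorem reservoir_small (S : Sys r lt s t k M W H) {i : ℕ} (hi : i < M) {X : Set V}
    (hXB : X ⊆ Big s t M W (H i))
    (hX : ∀ u ∈ X, ∀ v ∈ X, Sm r t k (m2 s t k M) (H i v ∩ As r s t M (H i) u ∩ X)) {v : V} (hv : v ∈ X)
    {R : Finset V} (hR : (R : Set V) ⊆ H i v) (hRc : R.card = rho s t) :
    ∀ u ∈ X, Sm r t k (gam s t k M) (H i u ∩ X ∩ Ap r t R) := by
  intro u hu
  have ht := S.t1
  have hvW : v ∈ W := (hXB hv).1
  obtain ⟨hc, hsub⟩ := Cs_spec S.t1 (hXB hv)
  have h1 := ap_diff (C := R) (C' := Cs s t M (H i) v) (p := t) (p' := t) S.t1 (S.hom v hvW i hi) hR hsub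
    le_rfl (by omega)
  rw [hRc, hc] at h1
  have h2 := hX v hv u hu
  refine (h1.union h2).mono_set ?_
  rintro x ⟨⟨hx1, hx2⟩, hx3⟩
  by_cases h : x ∈ Ap r t (Cs s t M (H i) v)
  · exact Or.inr ⟨⟨hx1, h⟩, hx2⟩
  · exact Or.inl ⟨hx3, h⟩

/-- The choice of `t` leaves in a reservoir.

PROOF. Every `e ∈ E` has fewer than `t` parents in `R` (`hE`), so at most `E.card * (t - 1)` elements of `R` are parents of an element of `E`, and `rho s t = s * (t+1) * t + t + 1`. -/
theorem exists_leaves_of_reservoir (ht : 1 ≤ t) {R E : Finset V} (v : V) (hRc : R.card = rho s t)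
    (hEc : E.card ≤ s * (t + 1)) (hE : ∀ e ∈ E, e ∉ Ap r t R) :
    ∃ Z : Finset V, Z.card = t ∧ Z ⊆ R ∧ v ∉ Z ∧ ∀ z ∈ Z, ∀ e ∈ E, ¬ r z e := by
  have h1 : (E.biUnion (fun e => R.filter (fun z => r z e))).card ≤ E.card * (t - 1) := by
    refine Finset.card_biUnion_le_card_mul _ _ _ fun e he => ?_
    have h2 := hE e he
    unfold Ap at h2
    rw [Set.mem_setOf_eq, not_le] at h2
    omega
  have h3 : E.card * (t - 1) ≤ s * (t + 1) * t :=
    (Nat.mul_le_mul_right _ hEc).trans (Nat.mul_le_mul_left _ (by omega))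
  have h4 : t ≤ ((R \ E.biUnion (fun e => R.filter (fun z => r z e))).erase v).card := by
    have h5 : R.card - (E.biUnion (fun e => R.filter (fun z => r z e))).card ≤
        (R \ E.biUnion (fun e => R.filter (fun z => r z e))).card := Finset.le_card_sdiff _ _
    have h6 : (R \ E.biUnion (fun e => R.filter (fun z => r z e))).card - 1 ≤
        ((R \ E.biUnion (fun e => R.filter (fun z => r z e))).erase v).card := Finset.pred_card_le_card_erase
    rw [hRc] at h5
    unfold rho at h5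
    omega
  obtain ⟨Z, hZ, hZc⟩ := Finset.exists_subset_card_eq h4
  refine ⟨Z, hZc, fun z hz => ?_, fun hv => ?_, fun z hz e he hze => ?_⟩
  · exact (Finset.mem_sdiff.1 (Finset.mem_of_mem_erase (hZ hz))).1
  · exact (Finset.notMem_erase v _) (hZ hv)
  · have h7 := Finset.mem_sdiff.1 (Finset.mem_of_mem_erase (hZ hz))
    exact h7.2 (Finset.mem_biUnion.2 ⟨e, he, Finset.mem_filter.2 ⟨h7.1, hze⟩⟩)

/-- Out-combs from a decreasing sequence of sets. `E` contains all vertices of the comb (the comb avoids the complement of `E`).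

PROOF. Induction on `c`, for all `β B v`. `v ∈ Y (c+1)`: `H i v ∩ Y c` is not `M5`-small; `H i v ∩ X ∩ B` is `β`-small and `Y c ⊆ X` (the sets `Y j` decrease), so `(H i v ∩ Y c) \ B` is not small with constant `M5 - β ≥ rho + 1` (`β ≤ s * gam`, `M5 = s * gam + rho + 1`), and there is a finset `T ⊆ (H i v ∩ Y c) \ B` with at least `rho + 1` elements
(`exists_finset_of_not_sm`).
`c = 0`: let `E` be a set of `t` elements of `T` (`t ≤ rho`); `Z = E`.
`c + 1`: let `R ⊆ T` have `rho s t` elements, and let `w ∈ T` (for instance in `R`). Induction hypothesis for `w ∈ Y (c+1)`, `β + gam`, `B ∪ Ap r t R` (`reservoir_small`, `Sm.union`): `E'` with at most `(c+1) * (t+1)` elements and `Cm r t c (ch r w) (B ∪ Ap r t R ∪ E'ᶜ)`. Replace `E'` by `E'' = E' \ Ap r t R` (`E'.filter (· ∉ Ap r t R)`): the avoided set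
`B ∪ Ap r t R ∪ E''ᶜ` is the same. `exists_leaves_of_reservoir` for `E''` and `w` (`(c+1) * (t+1) ≤ s * (t+1)`): `Z ⊆ R`. Let `E = insert w (Z ∪ E'')`, at most `1 + t + (c+1) * (t+1)` elements. `Cm r t (c+1) (ch r v) (B ∪ Eᶜ)` with `w` and `Z`: `w`, `Z` are in `ch r v` (`S.sub`), in `E` and not in `B` (`Z ⊆ R ⊆ T`), and
`Cm r t c (ch r w) (B ∪ Eᶜ ∪ uN r Z)` by `Cm.mono`: `B ∪ Eᶜ ∪ uN r Z ⊆ B ∪ Ap r t R ∪ E''ᶜ` (an element of `uN r Z` is not in `E''`). -/
theorem reservoir (S : Sys r lt s t k M W H) {i : ℕ} (hi : i < M) {X : Set V}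
    (hXB : X ⊆ Big s t M W (H i))
    (hX : ∀ u ∈ X, ∀ v ∈ X, Sm r t k (m2 s t k M) (H i v ∩ As r s t M (H i) u ∩ X)) (Y : ℕ → Set V)
    (hY0 : Y 0 ⊆ X) (hYs : ∀ j, ∀ u ∈ Y (j + 1), u ∈ Y j ∧ ¬ Sm r t k (M5 s t k M) (H i u ∩ Y j)) :
    ∀ (c β : ℕ) (B : Set V) (v : V), v ∈ Y (c + 1) → c + 1 ≤ s → β + (c + 1) * gam s t k M ≤ s * gam s t k M →
      (∀ u ∈ X, Sm r t k β (H i u ∩ X ∩ B)) →
      ∃ E : Finset V, E.card ≤ (c + 1) * (t + 1) ∧ Cm r t c (ch r v) (B ∪ (E : Set V)ᶜ) := by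
  have ht := S.t1
  have hYX : ∀ j, Y j ⊆ X := by
    intro j
    induction j with
    | zero => exact hY0
    | succ j ih => exact fun u hu => ih (hYs j u hu).1
  -- the large finite set in the complement of `B`
  have key : ∀ (c β : ℕ) (B : Set V) (v : V), v ∈ Y (c + 1) → β + (c + 1) * gam s t k M ≤ s * gam s t k M →
      (∀ u ∈ X, Sm r t k β (H i u ∩ X ∩ B)) →
      ∃ T : Finset V, T.card = rho s t ∧ ∀ x ∈ T, x ∈ H i v ∧ x ∈ Y c ∧ x ∉ B := by
    intro c β B v hv hβ hB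
    obtain ⟨hv1, hv2⟩ := hYs c v hv
    have hvX : v ∈ X := hYX _ hv1
    have hns : ¬ Sm r t k (rho s t + 1) ((H i v ∩ Y c) \ B) := by
      intro hc
      apply hv2
      have h1 := ((hB v hvX).union hc).mono_m (m' := M5 s t k M) ht (by
        have : β ≤ s * gam s t k M := le_trans (Nat.le_add_right _ _) hβ
        unfold M5
        omega)
      refine h1.mono_set ?_
      rintro x ⟨hx1, hx2⟩
      by_cases hxB : x ∈ B
      · exact Or.inl ⟨⟨hx1, hYX _ hx2⟩, hxB⟩
      · exact Or.inr ⟨⟨hx1, hx2⟩, hxB⟩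
    obtain ⟨T, hTc, hT⟩ := exists_finset_of_not_sm ht hns
    obtain ⟨T', hT', hTc'⟩ := Finset.exists_subset_card_eq (show rho s t ≤ T.card by omega)
    refine ⟨T', hTc', fun x hx => ?_⟩
    obtain ⟨⟨h1, h2⟩, h3⟩ := hT (hT' hx)
    exact ⟨h1, h2, h3⟩
  intro c
  induction c with
  | zero =>
    intro β B v hv _ hβ hB
    obtain ⟨T, hTc, hT⟩ := key 0 β B v hv hβ hB
    have hvW : v ∈ W := (hXB (hYX _ hv)).1
    obtain ⟨E, hE, hEc⟩ := Finset.exists_subset_card_eq (show t ≤ T.card by rw [hTc]; unfold rho; omega)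
    refine ⟨E, by rw [hEc]; omega, E, hEc, fun x hx => ?_⟩
    obtain ⟨h1, _, h3⟩ := hT x (hE hx)
    refine ⟨(S.sub v hvW i hi x h1).1, ?_⟩
    rintro (h4 | h4)
    · exact h3 h4
    · exact h4 hx
  | succ c ih =>
    intro β B v hv hcs hβ hB
    obtain ⟨R, hRc, hR⟩ := key (c + 1) β B v hv hβ hB
    have hvX : v ∈ X := hYX _ hv
    have hvW : v ∈ W := (hXB hvX).1
    have hRH : (R : Set V) ⊆ H i v := fun x hx => (hR x hx).1
    obtain ⟨w, hw⟩ : R.Nonempty := Finset.card_pos.1 (by rw [hRc]; unfold rho; omega)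
    have hwY : w ∈ Y (c + 1) := (hR w hw).2.1
    have hrs := reservoir_small S hi hXB hX hvX hRH hRc
    obtain ⟨E', hE'c, hE'⟩ := ih (β + gam s t k M) (B ∪ Ap r t R) w hwY (by omega)
      (by
        have : (c + 1 + 1) * gam s t k M = (c + 1) * gam s t k M + gam s t k M := by ring
        omega)
      (fun u hu => by
        refine ((hB u hu).union (hrs u hu)).mono_set ?_
        rintro x ⟨hx1, hx2 | hx2⟩
        · exact Or.inl ⟨hx1, hx2⟩
        · exact Or.inr ⟨hx1, hx2⟩)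
    have hE''c : (E'.filter (fun e => e ∉ Ap r t R)).card ≤ (c + 1) * (t + 1) :=
      (Finset.card_filter_le _ _).trans hE'c
    obtain ⟨Z, hZc, hZR, hwZ, hZ⟩ := exists_leaves_of_reservoir (s := s) ht w hRc
      (hE''c.trans (Nat.mul_le_mul_right _ (by omega))) (E := E'.filter (fun e => e ∉ Ap r t R))
      (fun e he => (Finset.mem_filter.1 he).2)
    refine ⟨insert w (Z ∪ E'.filter (fun e => e ∉ Ap r t R)), ?_, w, ?_, Z, hZc, ?_, hwZ, ?_⟩
    · refine (Finset.card_insert_le _ _).trans ?_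
      have h1 := Finset.card_union_le Z (E'.filter (fun e => e ∉ Ap r t R))
      rw [hZc] at h1
      have : (c + 1 + 1) * (t + 1) = (c + 1) * (t + 1) + (t + 1) := by ring
      omega
    · refine ⟨(S.sub v hvW i hi w (hRH hw)).1, ?_⟩
      rintro (h4 | h4)
      · exact (hR w hw).2.2 h4
      · exact h4 (by simp)
    · intro z hz
      refine ⟨(S.sub v hvW i hi z (hRH (hZR hz))).1, ?_⟩
      rintro (h4 | h4)
      · exact (hR z (hZR hz)).2.2 h4
      · exact h4 (by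
          have hz' : z ∈ Z := hz
          rw [Finset.mem_coe, Finset.mem_insert, Finset.mem_union]
          exact Or.inr (Or.inl hz'))
    · refine hE'.mono (Set.Subset.refl _) ?_
      rintro x ((hx | hx) | hx)
      · exact Or.inl (Or.inl hx)
      · by_cases h5 : x ∈ Ap r t R
        · exact Or.inl (Or.inr h5)
        · right
          intro hxE
          apply hx
          rw [Finset.mem_coe, Finset.mem_insert, Finset.mem_union, Finset.mem_filter]
          exact Or.inr (Or.inr ⟨hxE, h5⟩)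
      · by_cases h5 : x ∈ Ap r t R
        · exact Or.inl (Or.inr h5)
        · right
          intro hxE
          obtain ⟨z, hz, hzx⟩ := hx
          exact hZ z hz x (Finset.mem_filter.2 ⟨hxE, h5⟩) hzx

/-- PROOF. `Y : ℕ → Set V` by recursion: `Y 0 = X`, `Y (j+1) = {u | u ∈ Y j ∧ ¬ Sm r t k M5 (H i u ∩ Y j)}`. `Y s` is empty: for `v ∈ Y s = Y ((s-1)+1)` `reservoir` with `c = s - 1`, `β = 0`, `B = ∅` (`Sm.empty`) and `Cm.mono`, `upComb_of_cm` give `UpComb r s t`, against `S.out`. For `v ∈ X` let `q v` be the largest `j < s` with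
`v ∈ Y j` (`Nat.findGreatest`). Then `v ∈ Y (q v)`, `v ∉ Y (q v + 1)`, so `H i v ∩ Y (q v)` is `M5`-small, and the class of `v` is contained in `Y (q v)`. -/
theorem peel (S : Sys r lt s t k M W H) {i : ℕ} (hi : i < M) {X : Set V}
    (hXB : X ⊆ Big s t M W (H i))
    (hX : ∀ u ∈ X, ∀ v ∈ X, Sm r t k (m2 s t k M) (H i v ∩ As r s t M (H i) u ∩ X)) :
    ∃ q : V → ℕ, (∀ v ∈ X, q v < s) ∧
      ∀ u ∈ X, Sm r t k (M5 s t k M) (H i u ∩ {v | v ∈ X ∧ q v = q u}) := by
  have ht := S.t1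
  have hs := S.s1
  obtain ⟨Y, hY0, hY1⟩ : ∃ Y : ℕ → Set V, Y 0 = X ∧
      ∀ j, Y (j + 1) = {u | u ∈ Y j ∧ ¬ Sm r t k (M5 s t k M) (H i u ∩ Y j)} :=
    ⟨fun n => Nat.rec X (fun _ Yj => {u | u ∈ Yj ∧ ¬ Sm r t k (M5 s t k M) (H i u ∩ Yj)}) n, rfl, fun _ => rfl⟩
  have hYs : ∀ j, ∀ u ∈ Y (j + 1), u ∈ Y j ∧ ¬ Sm r t k (M5 s t k M) (H i u ∩ Y j) := by
    intro j u hu
    rw [hY1 j] at hu
    exact hu
  have hempty : ∀ v, v ∉ Y s := by
    intro v hv
    obtain ⟨c, hc⟩ : ∃ c, s = c + 1 := ⟨s - 1, by omega⟩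
    have hv' : v ∈ Y (c + 1) := by rw [← hc]; exact hv
    obtain ⟨E, _, hE⟩ := reservoir S hi hXB hX Y hY0.subset hYs c 0 ∅ v hv' (by omega) (by
      rw [Nat.zero_add, ← hc]) (fun u _ => (Sm.empty ht 0).mono_set (by simp))
    have h1 := upComb_of_cm S.ho c v (hE.mono (Set.Subset.refl _) (Set.empty_subset _))
    rw [← hc] at h1
    exact S.out h1
  refine ⟨fun v => Nat.findGreatest (fun j => v ∈ Y j) (s - 1), ?_, ?_⟩
  · intro v _
    have := Nat.findGreatest_le (P := fun j => v ∈ Y j) (s - 1)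
    show Nat.findGreatest (fun j => v ∈ Y j) (s - 1) < s
    omega
  · intro u hu
    have hsp : ∀ v ∈ X, v ∈ Y (Nat.findGreatest (fun j => v ∈ Y j) (s - 1)) := by
      intro v hv
      have hv0 : v ∈ Y 0 := by rw [hY0]; exact hv
      exact Nat.findGreatest_spec (P := fun j => v ∈ Y j) (Nat.zero_le _) hv0
    have hu1 := hsp u hu
    have hu2 : u ∉ Y (Nat.findGreatest (fun j => u ∈ Y j) (s - 1) + 1) := by
      intro hc
      by_cases h1 : Nat.findGreatest (fun j => u ∈ Y j) (s - 1) + 1 ≤ s - 1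
      · exact Nat.findGreatest_is_greatest (P := fun j => u ∈ Y j) (Nat.lt_succ_self _) h1 hc
      · have h2 := Nat.findGreatest_le (P := fun j => u ∈ Y j) (s - 1)
        have h3 : Nat.findGreatest (fun j => u ∈ Y j) (s - 1) + 1 = s := by omega
        rw [h3] at hc
        exact hempty u hc
    rw [hY1] at hu2
    have h3 : Sm r t k (M5 s t k M) (H i u ∩ Y (Nat.findGreatest (fun j => u ∈ Y j) (s - 1))) := by
      by_contra h4
      exact hu2 ⟨hu1, h4⟩
    refine h3.mono_set ?_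
    rintro x ⟨hx1, hx2, hx3⟩
    refine ⟨hx1, ?_⟩
    have h5 := hsp x hx2
    have h6 : Nat.findGreatest (fun j => x ∈ Y j) (s - 1) = Nat.findGreatest (fun j => u ∈ Y j) (s - 1) := hx3
    rw [h6] at h5
    exact h5

end Pool.Agent.Lib.MP_b0c2b5_co.C5
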