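import Pool.Agent.Lib.MP_b0c2b5_co.C5.Rich
import Pool.Agent.Lib.MP_b0c2b5_co.C5.Kap
import Pool.Agent.Lib.MP_b0c2b5_co.C5.Peel

/-! The step for one index `i`: classes in which the sets `H i u` are `k`-small. -/

set_option autoImplicit false

namespace Pool.Agent.Lib.MP_b0c2b5_co.C5

open Finset LS
open scoped Classical

universe u

variable {V : Type u} [Fintype V] {r lt : V → V → Prop} {s t k M : ℕ} {W : Set V} {H : ℕ → V → Set V}

/-- classes from the peeling -/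
theorem peel_col (S : Sys r lt s t k M W H) {i : ℕ} (hi : i < M) {X : Set V}
    (hXB : X ⊆ Big s t M W (H i))
    (hX : ∀ u ∈ X, ∀ v ∈ X, Sm r t k (m2 s t k M) (H i v ∩ As r s t M (H i) u ∩ X)) {c0 : ℕ}
    (hc : ∀ X' ⊆ X, (∀ u ∈ X', Sm r t k (Mp s t k M) (H i u ∩ X')) → ColOn r X' c0) :
    ColOn r X (s * c0) := by
  obtain ⟨q, hq, hq2⟩ := peel S hi hXB hX
  refine ColOn.classes q hq fun j _ => hc _ (fun v hv => hv.1) ?_
  intro u hu
  refine ((hq2 u hu.1).mono_set ?_).mono_m S.t1 (Nat.le_add_right _ _)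
  rintro x ⟨hx, hx1, hx2⟩
  exact ⟨hx, hx1, by rw [hx2, hu.2]⟩

theorem idx (S : Sys r lt s t k M W H) {i : ℕ} (hi : i < M) {X : Set V} (hXW : X ⊆ W) {c0 : ℕ}
    (hc : ∀ X' ⊆ X, (∀ u ∈ X', Sm r t k (Mp s t k M) (H i u ∩ X')) → ColOn r X' c0) :
    ColOn r X (s + (c0 + (s * c0 + KK s t M * ((2 * (2 * t * M) + 1) * (s * c0))))) := by
  -- rich vertices
  have h1 : ColOn r {x | x ∈ X ∧ Rich r s t k M W (H i) x} s :=
    (rich_col S hi).mono (fun x hx => ⟨hXW hx.1, hx.2⟩) le_rfl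
  -- vertices without a large cluster
  have h2 : ColOn r {x | x ∈ X ∧ x ∉ Big s t M W (H i)} c0 := by
    refine hc _ (fun x hx => hx.1) ?_
    intro u hu
    have h3 : Sm r t k (2 * pp s t M - 2) (H i u) := by
      by_contra hcon
      obtain ⟨T, hT, hT2⟩ := exists_finset_of_not_sm S.t1 hcon
      have h4 := le_pp s t M
      have h5 := S.t1
      exact hu.2 ⟨hXW hu.1, T, by omega, hT2⟩
    exact (h3.mono_set Set.inter_subset_left).mono_m S.t1 (by unfold Mp; omega)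
  -- vertices in no `VL l`
  have h3 : ColOn r {x | x ∈ X ∧ ¬ Rich r s t k M W (H i) x ∧ x ∈ Big s t M W (H i) ∧
      ∀ l < KK s t M, x ∉ VL r s t k M W (H i) l} (s * c0) := by
    refine peel_col S hi (fun x hx => hx.2.2.1) ?_ (fun X' hX' => hc X' (fun x hx => (hX' hx).1))
    intro u hu v _
    have h4 := lo_small S hi hu.2.2.1 hu.2.2.2 (X := {x | x ∈ X ∧ ¬ Rich r s t k M W (H i) x ∧
      x ∈ Big s t M W (H i) ∧ ∀ l < KK s t M, x ∉ VL r s t k M W (H i) l})
      (fun x hx => ⟨hXW hx.1, hx.2.1⟩)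
    refine (h4.mono_set ?_).mono_m S.t1 (Nat.le_add_left _ _)
    rintro x ⟨⟨_, hx2⟩, hx3⟩
    exact ⟨hx2, hx3⟩
  -- the sets `VL l`
  have h4 : ∀ l < KK s t M, ∀ X'' ⊆ X, X'' ⊆ VL r s t k M W (H i) l →
      ColOn r X'' ((2 * (2 * t * M) + 1) * (s * c0)) := by
    intro l hl X'' hX'' hVL
    obtain ⟨f, hf, hf2⟩ := kap_col S hi hl
    refine ColOn.classes f (fun v hv => hf v (hVL hv)) fun j _ => ?_
    refine peel_col S hi (fun x hx => (hVL hx.1).1) ?_
      (fun X' hX' => hc X' (fun x hx => hX'' (hX' hx).1))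
    intro u hu v hv
    have h5 : Sm r t k (ms s t k M) (H i v ∩ As r s t M (H i) u) := by
      by_contra hcon
      exact hf2 u (hVL hu.1) v (hVL hv.1) hcon (by rw [hu.2, hv.2])
    exact (h5.mono_set Set.inter_subset_left).mono_m S.t1 (Nat.le_add_right _ _)
  have h5 : ColOn r {x | x ∈ X ∧ ∃ l < KK s t M, x ∈ VL r s t k M W (H i) l}
      (KK s t M * ((2 * (2 * t * M) + 1) * (s * c0))) := by
    refine ColOn.classes (fun x => if h : ∃ l < KK s t M, x ∈ VL r s t k M W (H i) l then h.choose else 0)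
      ?_ ?_
    · rintro v ⟨_, hv⟩
      simp only [hv, dif_pos]
      exact hv.choose_spec.1
    · intro l hl
      refine h4 l hl _ (fun x hx => hx.1.1) ?_
      rintro x ⟨⟨_, hx⟩, hx2⟩
      simp only [hx, dif_pos] at hx2
      have h6 := hx.choose_spec.2
      rw [hx2] at h6
      exact h6
  refine (h1.union (h2.union (h3.union h5))).mono (fun x hx => ?_) le_rfl
  by_cases hR : Rich r s t k M W (H i) x
  · exact Or.inl ⟨hx, hR⟩
  · right
    by_cases hB : x ∈ Big s t M W (H i)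
    · right
      by_cases hV : ∃ l < KK s t M, x ∈ VL r s t k M W (H i) l
      · exact Or.inr ⟨hx, hV⟩
      · left
        exact ⟨hx, hR, hB, fun l hl hxl => hV ⟨l, hl, hxl⟩⟩
    · exact Or.inl ⟨hx, hB⟩

end Pool.Agent.Lib.MP_b0c2b5_co.C5
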