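import Pool.Agent.Lib.MP_b0c2b5_co.C5.Defs
import Pool.Agent.Lib.MP_b0c2b5_co.LS.Cover

/-! In-combs along paths. -/

set_option autoImplicit false

namespace Pool.Agent.Lib.MP_b0c2b5_co.C5

open Finset LS
open scoped Classical

universe u

variable {V : Type u} {r lt : V → V → Prop} {t k : ℕ}

/-- choice of the leaves, from the last vertex down -/
private theorem InC_leaves {s : ℕ} {W X : Set V} (hXW : X ⊆ W)
    (hstep : ∀ x ∈ X, ∀ E : Finset V, (E : Set V) ⊆ W → E.card ≤ s * (t + 1) →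
      ∃ Z : Finset V, Z.card = t ∧ (Z : Set V) ⊆ W ∧ ∀ z ∈ Z, r z x ∧ ∀ q ∈ E, ¬ r q z)
    (p : ℕ → V) (hp : ∀ i < s, p i ∈ X) :
    ∀ k ≤ s, ∃ Z : ℕ → Finset V, ∀ i, s - k ≤ i → i < s → (Z i).card = t ∧ (Z i : Set V) ⊆ W ∧
      ∀ z ∈ Z i, r z (p i) ∧ ∀ l, i < l → l < s → ¬ r (p l) z ∧ ∀ z' ∈ Z l, ¬ r z' z := by
  intro k
  induction k with
  | zero =>
    intro _
    exact ⟨fun _ => ∅, fun i h1 h2 => absurd h1 (by omega)⟩
  | succ k ih =>
    intro hk
    obtain ⟨Z, hZ⟩ := ih (by omega)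
    set i0 : ℕ := s - (k + 1) with hi0
    have hi0s : i0 < s := by omega
    set E : Finset V := (Finset.Ioo i0 s).biUnion (fun l => insert (p l) (Z l)) with hE
    have hEW : (E : Set V) ⊆ W := by
      intro x hx
      rw [Finset.mem_coe, hE, mem_biUnion] at hx
      obtain ⟨l, hl, hx⟩ := hx
      rw [Finset.mem_Ioo] at hl
      rcases Finset.mem_insert.1 hx with h | h
      · rw [h]
        exact hXW (hp l hl.2)
      · exact (hZ l (by omega) hl.2).2.1 h
    have hEc : E.card ≤ s * (t + 1) := by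
      have h1 : E.card ≤ ∑ l ∈ Finset.Ioo i0 s, (t + 1) := by
        refine card_biUnion_le.trans (Finset.sum_le_sum fun l hl => ?_)
        rw [Finset.mem_Ioo] at hl
        have h2 := Finset.card_insert_le (p l) (Z l)
        have h3 := (hZ l (by omega) hl.2).1
        omega
      rw [Finset.sum_const, smul_eq_mul, Nat.card_Ioo] at h1
      exact h1.trans (Nat.mul_le_mul_right _ (by omega))
    obtain ⟨Y, hYc, hYW, hY⟩ := hstep (p i0) (hp i0 hi0s) E hEW hEc
    refine ⟨Function.update Z i0 Y, fun i h1 h2 => ?_⟩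
    by_cases hi : i = i0
    · rw [hi, Function.update_self]
      refine ⟨hYc, hYW, fun z hz => ⟨(hY z hz).1, fun l hl1 hl2 => ?_⟩⟩
      have hne : l ≠ i0 := by omega
      rw [Function.update_of_ne hne]
      have hl : l ∈ Finset.Ioo i0 s := Finset.mem_Ioo.2 ⟨hl1, hl2⟩
      constructor
      · exact (hY z hz).2 (p l) (mem_biUnion.2 ⟨l, hl, Finset.mem_insert_self _ _⟩)
      · intro z' hz'
        exact (hY z hz).2 z' (mem_biUnion.2 ⟨l, hl, Finset.mem_insert_of_mem hz'⟩)
    · rw [Function.update_of_ne hi]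
      obtain ⟨hc, hW, hy⟩ := hZ i (by omega) h2
      refine ⟨hc, hW, fun z hz => ⟨(hy z hz).1, fun l hl1 hl2 => ?_⟩⟩
      have hne : l ≠ i0 := by omega
      rw [Function.update_of_ne hne]
      exact (hy z hz).2 l hl1 hl2

/-- If for every `x ∈ X` and every set `E` of at most `s * (t + 1)` vertices of `W` there are `t` parents of `x` in `W` which are not children of an element of `E`, then `X` is `s`-colourable or there is an in-comb.

PROOF. `path_or_col` (`LS/Cover.lean`) for `rev r` and `X`: either `ColOn (rev r) X s` (then `ColOn.rev`, `rev_rev`), or a path `p` with `p i ∈ X` for `i < s` and `rev r (p i) (p (i+1))`, that is `r (p (i+1)) (p i)`, for `i + 1 < s`. Choose the leaves from the last vertex down: claim (induction on `k ≤ s`, compare `exists_leaves` in `C4/Rich.lean`):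
there is `Z : ℕ → Finset V` such that for `s - k ≤ i < s`: `(Z i).card = t`, `Z i ⊆ W`, `∀ z ∈ Z i, r z (p i)` and for all `l` with `i < l < s`: `∀ z ∈ Z i, ¬ r (p l) z ∧ ∀ z' ∈ Z l, ¬ r z' z`. Step: `i = s - (k+1)`, `E` = the vertices `p l` and the elements of `Z l`, `i < l < s`, at most `s * (1 + t)` vertices
of `W` (`hXW`); `hstep`; `Function.update Z i _`. For `k = s` this is `UpComb (rev r) s t`. -/
theorem col_or_incomb {s : ℕ} (hs : 1 ≤ s) {W X : Set V} (hXW : X ⊆ W)
    (hstep : ∀ x ∈ X, ∀ E : Finset V, (E : Set V) ⊆ W → E.card ≤ s * (t + 1) →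
      ∃ Z : Finset V, Z.card = t ∧ (Z : Set V) ⊆ W ∧ ∀ z ∈ Z, r z x ∧ ∀ q ∈ E, ¬ r q z)
    (hno : ¬ UpComb (rev r) s t) : ColOn r X s := by
  rcases path_or_col (rev r) X hs with ⟨p, hp, hpr⟩ | h
  · exfalso
    obtain ⟨Z, hZ⟩ := InC_leaves hXW hstep p hp s le_rfl
    refine hno ⟨p, Z, hpr, ?_, ?_⟩
    · intro i hi
      obtain ⟨hc, -, hy⟩ := hZ i (by omega) hi
      exact ⟨hc, fun z hz => (hy z hz).1⟩
    · intro i l hil hls z hz
      obtain ⟨-, -, hy⟩ := hZ i (by omega) (by omega)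
      exact (hy z hz).2 l hil hls
  · exact h.rev

end Pool.Agent.Lib.MP_b0c2b5_co.C5
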