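import Pool.Agent.Lib.MP_b0c2b5_co.C5.Defs

/-! The structure theorem: without out-combs every set of siblings is homogeneous. -/

set_option autoImplicit false

namespace Pool.Agent.Lib.MP_b0c2b5_co.C5

open Finset LS
open scoped Classical

universe u

variable {V : Type u} {r lt : V → V → Prop} {t k : ℕ}

/-- Vertices which are not met by the comb need not be avoided.

PROOF. Induction on `c` (for all `J`, `B`, `D`). All vertices of the comb are in `J` or above an element of `J`. For `c = 0`: `J \ B = J \ (B ∪ D)` by `hD`. For `c + 1`: `v ∈ J \ B`, `Z ⊆ J \ B`; by the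
induction hypothesis for `ch r v`, `B ∪ uN r Z`, `D` (elements of `ch r v` and elements above them are above `v ∈ J`) we get `Cm r t c (ch r v) (B ∪ uN r Z ∪ D)`, and `B ∪ D ∪ uN r Z` is the same set
(`Cm.mono`). -/
theorem Cm.add_avoid (h : HO r lt) {c : ℕ} {J B D : Set V} (hc : Cm r t c J B)
    (hD : ∀ x ∈ D, x ∉ J ∧ ∀ y ∈ J, ¬ lt y x) : Cm r t c J (B ∪ D) := by
  induction c generalizing J B with
  | zero =>
    obtain ⟨Z, hZ, hZ2⟩ := hc
    refine ⟨Z, hZ, fun x hx => ?_⟩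
    obtain ⟨h1, h2⟩ := hZ2 hx
    exact ⟨h1, fun h3 => h3.elim h2 fun h4 => (hD x h4).1 h1⟩
  | succ c ih =>
    obtain ⟨v, ⟨hvJ, hvB⟩, Z, hZ, hZ2, hvZ, h3⟩ := hc
    refine ⟨v, ⟨hvJ, fun h4 => h4.elim hvB fun h5 => (hD v h5).1 hvJ⟩, Z, hZ, fun x hx => ?_, hvZ, ?_⟩
    · obtain ⟨h1, h2⟩ := hZ2 hx
      exact ⟨h1, fun h3 => h3.elim h2 fun h4 => (hD x h4).1 h1⟩
    · have h4 := ih h3 (fun x hx => ⟨fun h5 => (hD x hx).2 v hvJ (h.arc v x h5),
        fun y hy h6 => (hD x hx).2 v hvJ (h.trans v y x (h.arc v y hy) h6)⟩)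
      refine h4.mono (Set.Subset.refl _) ?_
      rintro x ((hx | hx) | hx)
      · exact Or.inl (Or.inl hx)
      · exact Or.inr hx
      · exact Or.inl (Or.inr hx)

/-- The structure theorem.

PROOF. Induction on `c`, for all `κ F B m`. Let `A`, `Z` be disjoint `t`-subsets of `F \ B`; we have to show that `dN r A Z` is `(κ + al c)`-small with constant `(κ + al c + 1) * t`.

`c = 0` (`al 0 = 0`): let `a ∈ A` (`1 ≤ t`). `dN r A Z ⊆ (B ∩ {x | ∃ v ∈ F, lt v x}) ∪ S`, `S = {x | r a x ∧ x ∉ B ∧ x ∉ uN r Z}` (the children of `a` are above `a ∈ F`). `S` has no `t`-subset, otherwise `Cm r t 1 F B`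
with `v = a` and `Z` (`a ∉ Z` by disjointness). So `S` is contained in a finset with at most `t` elements (a set without `t`-subsets is finite: `Set.Infinite.exists_subset_card_eq`, or use that it has fewer than `t` elements
with `Set.encard`); `Sm.of_card`, `Sm.union`, `m + t ≤ (κ + 1) * t`, `Sm.mono_m`.

`c + 1`: put `S = dN r A Z \ B`. (1) `¬ Cm r t (c+1) S (B ∪ uN r Z)`: otherwise, with `a ∈ A`, `S ⊆ ch r a` (`Cm.mono`), `Cm r t (c+1+1) F B` with `v = a` and `Z`.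
(2) For `z ∈ Z` let `J z = {x | r z x ∧ (∃ s ∈ S, lt s x) ∧ x ∉ B}`. Then `¬ Cm r t (c+1) (J z) B`: otherwise `Cm.add_avoid` with `D = uN r A` gives `Cm r t (c+1) (J z) (B ∪ uN r A)`, hence (`J z ⊆ ch r z`) `Cm r t (c+1+1) F B` with `v = z` and
leaves `A`. Condition of `add_avoid`: let `x` be a child of `a ∈ A` with `x = y` or `lt y x`, `y ∈ J z`, `lt s y`, `s ∈ S`: then `r a s`, `lt s x`, `r a x`, against `h.sf a x s` (`h.arc a s`).
(3) the induction hypothesis for `κ`, `J z`, `B`, `m` (the elements of `B` above an element of `J z` are above `z ∈ F`) gives `Hom r t (κ + al c) (J z \ B)`, so `Sm r t (κ + al c + 1) 1 (J z)` (`J z \ B = J z`, `Hom.sm`).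
(4) Put `κ' = κ + al c + 1`. `(B ∪ uN r Z) ∩ {x | ∃ s ∈ S, lt s x}` is contained in `(B ∩ {x | ∃ v ∈ F, lt v x}) ∪ {x | ∃ z ∈ Z, x ∈ J z}` (an element above `s ∈ S` is above `a ∈ A ⊆ F`), which is `κ'`-small with constant
`m + t * 1` (`Sm.le`, `Sm.biUnion`, `Z.card = t`), and `m + t ≤ κ' * t`. The induction hypothesis for `κ'`, `S`, `B ∪ uN r Z` gives `Hom r t (κ' + al c) (S \ (B ∪ uN r Z))`, and this set is `S`.
(5) `dN r A Z ⊆ S ∪ (B ∩ {x | ∃ v ∈ F, lt v x})` is `(κ' + al c + 1)`-small with constant `1 + m`, and `κ' + al c + 1 = κ + al (c+1)`. -/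
theorem hom_of_not_cm (h : HO r lt) (ht : 1 ≤ t) (c κ : ℕ) (F B : Set V) (m : ℕ) (hm : m ≤ κ * t)
    (hc : ¬ Cm r t (c + 1) F B) (hB : Sm r t κ m (B ∩ {x | ∃ v ∈ F, lt v x})) :
    Hom r t (κ + al c) (F \ B) := by
  induction c generalizing κ F B m with
  | zero =>
    intro A Z hA hZ hAZ hAc hZc
    show Sm r t κ ((κ + 1) * t) (dN r A Z)
    obtain ⟨a, ha⟩ := Finset.card_pos.1 (by omega : 0 < A.card)
    have hno : ¬ ∃ T : Finset V, T.card = t ∧ (T : Set V) ⊆ {x | r a x ∧ x ∉ B ∧ x ∉ uN r Z} := by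
      rintro ⟨T, hT, hTS⟩
      refine hc ⟨a, hA ha, Z, hZc, hZ, Finset.disjoint_left.1 hAZ ha, T, hT, fun x hx => ?_⟩
      obtain ⟨h1, h2, h3⟩ := hTS hx
      exact ⟨h1, fun h4 => h4.elim h2 h3⟩
    have hfin : {x | r a x ∧ x ∉ B ∧ x ∉ uN r Z}.Finite := by
      by_contra hinf
      obtain ⟨T, hT, hTc⟩ := Set.Infinite.exists_subset_card_eq hinf t
      exact hno ⟨T, hTc, hT⟩
    have hcard : hfin.toFinset.card ≤ t := by
      by_contra h1
      obtain ⟨T, hT, hTc⟩ := Finset.exists_subset_card_eq (by omega : t ≤ hfin.toFinset.card)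
      exact hno ⟨T, hTc, fun x hx => hfin.mem_toFinset.1 (hT hx)⟩
    have h1 := hB.union (Sm.of_card (r := r) (k := κ) ht hfin.toFinset hcard
      (fun x hx => hfin.mem_toFinset.2 hx))
    refine (h1.mono_m ht (by nlinarith)).mono_set fun x hx => ?_
    by_cases hxB : x ∈ B
    · exact Or.inl ⟨hxB, a, (hA ha).1, h.arc a x (hx.1 a ha)⟩
    · refine Or.inr ⟨hx.1 a ha, hxB, ?_⟩
      rintro ⟨z, hz, hzx⟩
      exact hx.2 z hz hzx
  | succ c ih =>
    intro A Z hA hZ hAZ hAc hZc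
    obtain ⟨a, ha⟩ := Finset.card_pos.1 (by omega : 0 < A.card)
    have hSch : dN r A Z \ B ⊆ ch r a := fun x hx => hx.1.1 a ha
    have h1 : ¬ Cm r t (c + 1) (dN r A Z \ B) (B ∪ uN r Z) := fun h1 =>
      hc ⟨a, hA ha, Z, hZc, hZ, Finset.disjoint_left.1 hAZ ha, h1.mono hSch (Set.Subset.refl _)⟩
    let J : V → Set V := fun z => {x | r z x ∧ (∃ s ∈ dN r A Z \ B, lt s x) ∧ x ∉ B}
    have h2 : ∀ z ∈ Z, ¬ Cm r t (c + 1) (J z) B := by
      intro z hz h2
      have h3 : Cm r t (c + 1) (J z) (B ∪ uN r A) := by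
        refine Cm.add_avoid h h2 ?_
        rintro x ⟨a', ha', hax⟩
        constructor
        · rintro ⟨_, ⟨s, hs, hsx⟩, _⟩
          exact h.sf a' x s hax (h.arc a' s (hs.1.1 a' ha')) hsx
        · rintro y ⟨_, ⟨s, hs, hsy⟩, _⟩ hyx
          exact h.sf a' x s hax (h.arc a' s (hs.1.1 a' ha')) (h.trans s y x hsy hyx)
      exact hc ⟨z, hZ hz, A, hAc, hA, fun hzA => Finset.disjoint_left.1 hAZ hzA hz,
        h3.mono (fun x hx => hx.1) (Set.Subset.refl _)⟩
    have h3 : ∀ z ∈ Z, Sm r t (κ + al c + 1) 1 (J z) := by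
      intro z hz
      have h4 := ih κ (J z) B m hm (h2 z hz) (hB.mono_set (by
        rintro x ⟨hxB, y, hy, hyx⟩
        exact ⟨hxB, z, (hZ hz).1, h.trans z y x (h.arc z y hy.1) hyx⟩))
      exact h4.sm.mono_set (fun x hx => ⟨hx, hx.2.2⟩)
    have h5 : Sm r t (κ + al c + 1) (m + t * 1)
        ((B ∪ uN r Z) ∩ {x | ∃ s ∈ dN r A Z \ B, lt s x}) := by
      have h6 := (hB.le ht (by omega : κ ≤ κ + al c + 1)).union (Sm.biUnion ht Z J h3)
      rw [hZc] at h6
      refine h6.mono_set ?_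
      rintro x ⟨hx, s, hs, hsx⟩
      by_cases hxB : x ∈ B
      · exact Or.inl ⟨hxB, a, (hA ha).1, h.trans a s x (h.arc a s (hs.1.1 a ha)) hsx⟩
      · rcases hx with hx | ⟨z, hz, hzx⟩
        · exact absurd hx hxB
        · exact Or.inr ⟨z, hz, hzx, ⟨s, hs, hsx⟩, hxB⟩
    have h7 : m + t * 1 ≤ (κ + al c + 1) * t := by
      have : (κ + al c + 1) * t = κ * t + al c * t + t := by ring
      have h8 : 0 ≤ al c * t := Nat.zero_le _
      omega
    have h8 := ih (κ + al c + 1) (dN r A Z \ B) (B ∪ uN r Z) (m + t * 1) h7 h1 h5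
    have h9 : Sm r t (κ + al c + 1 + al c + 1) (1 + m) (dN r A Z) := by
      refine (h8.sm.union (hB.le ht (by omega : κ ≤ κ + al c + 1 + al c + 1))).mono_set fun x hx => ?_
      by_cases hxB : x ∈ B
      · exact Or.inr ⟨hxB, a, (hA ha).1, h.arc a x (hx.1 a ha)⟩
      · refine Or.inl ⟨⟨hx, hxB⟩, fun h10 => h10.elim hxB ?_⟩
        rintro ⟨z, hz, hzx⟩
        exact hx.2 z hz hzx
    have h10 : κ + al c + 1 + al c + 1 = κ + al (c + 1) := by
      simp only [al]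
      omega
    rw [h10] at h9
    refine h9.mono_m ht ?_
    have h11 : (κ + al (c + 1) + 1) * t = κ * t + al (c + 1) * t + t := by ring
    omega

end Pool.Agent.Lib.MP_b0c2b5_co.C5
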