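import Pool.Agent.Lib.MP_b0c2b5_co.C5.Idx
import Pool.Agent.Lib.MP_b0c2b5_co.C5.ThmA
import Pool.Agent.Lib.MP_b0c2b5_co.LS.RefineA

/-! The main theorem: Hasse diagrams without out-combs and in-combs. -/

set_option autoImplicit false

namespace Pool.Agent.Lib.MP_b0c2b5_co.C5

open Finset LS
open scoped Classical

universe u

theorem col_of_outdeg {V : Type u} [Finite V] {r lt : V → V → Prop} (h : HO r lt) (W : Set V) (m : ℕ)
    (hd : ∀ v ∈ W, ∃ S : Finset V, S.card ≤ m ∧ ∀ w ∈ W, r v w → w ∈ S) : ColOn r W (m + 1) := by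
  obtain ⟨f, hf, hf2⟩ := outdeg_col h (fun x y => x ∈ W ∧ y ∈ W ∧ r x y)
    (fun x y hxy => h.arc x y hxy.2.2) m (by
      intro v
      by_cases hv : v ∈ W
      · obtain ⟨S, hS, hS2⟩ := hd v hv
        exact ⟨S, hS, fun w hw => hS2 w hw.2.1 hw.2.2⟩
      · exact ⟨∅, by simp, fun w hw => absurd hw.1 hv⟩)
  exact ⟨f, fun v _ => hf v, fun x hx y hy hxy => hf2 x y ⟨hx, hy, hxy⟩⟩

/-- the numbers of colours when the last `j` indices are left -/
def DD (s t k M c0 : ℕ) : ℕ → ℕ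
  | 0 => c0
  | j + 1 => s + (DD s t k M c0 j + (s * DD s t k M c0 j +
      KK s t M * ((2 * (2 * t * M) + 1) * (s * DD s t k M c0 j))))

/-- the induction on the level of smallness -/
theorem sk (s t : ℕ) (hs : 1 ≤ s) (ht : 1 ≤ t) : ∀ k M : ℕ, ∃ C : ℕ, ∀ (V : Type u) [Finite V]
    (r lt : V → V → Prop), HO r lt → ¬ UpComb r s t → ¬ UpComb (rev r) s t →
    ∀ W : Set V, (∀ u ∈ W, Sm r t k M (ch r u ∩ W)) → ColOn r W C := by
  intro k
  induction k with
  | zero =>
    intro M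
    refine ⟨M + 1, ?_⟩
    intro V _ r lt h _ _ W hW
    refine col_of_outdeg h W M fun v hv => ?_
    obtain ⟨T, hT, hT2⟩ := hW v hv
    exact ⟨T, hT, fun w hw hr => hT2 ⟨hr, hw⟩⟩
  | succ k ih =>
    intro M
    obtain ⟨C0, hC0⟩ := ih (M * Mp s t k M)
    refine ⟨DD s t k M C0 M, ?_⟩
    intro V _ r lt h hout hinn W hW
    have : Fintype V := Fintype.ofFinite V
    have hex : ∀ u : V, ∃ H : ℕ → Set V, u ∈ W → (∀ i < M, Hom r t k (H i)) ∧
        (∀ i < M, ∀ x ∈ H i, r u x ∧ x ∈ W) ∧ ∀ x ∈ W, r u x → ∃ i < M, x ∈ H i := by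
      intro u
      by_cases hu : u ∈ W
      · obtain ⟨H, h1, h2⟩ := hW u hu
        refine ⟨fun i => H i ∩ (ch r u ∩ W), fun _ => ⟨fun i hi => ?_, fun i _ x hx => hx.2, ?_⟩⟩
        · exact (h1 i hi).mono Set.inter_subset_left
        · intro x hx hr
          obtain ⟨i, hi, hxi⟩ := h2 x ⟨hr, hx⟩
          exact ⟨i, hi, hxi, hr, hx⟩
      · exact ⟨fun _ => ∅, fun hc => absurd hc hu⟩
    choose H' hH' using hex
    set H : ℕ → V → Set V := fun i u => H' u i with hHdef
    have S : Sys r lt s t k M W H :=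
      ⟨h, ht, hs, hout, hinn, fun u hu i hi => (hH' u hu).1 i hi,
        fun u hu i hi x hx => (hH' u hu).2.1 i hi x hx, fun u hu x hx hr => (hH' u hu).2.2 x hx hr⟩
    have key : ∀ j ≤ M, ∀ X ⊆ W, (∀ i < M - j, ∀ u ∈ X, Sm r t k (Mp s t k M) (H i u ∩ X)) →
        ColOn r X (DD s t k M C0 j) := by
      intro j
      induction j with
      | zero =>
        intro _ X hX hsm
        refine hC0 V r lt h hout hinn X fun u hu => ?_
        refine (Sm.iUnion_lt ht M (fun i => H i u ∩ X) (fun i hi => hsm i (by omega) u hu)).mono_set ?_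
        rintro x ⟨hr, hx⟩
        obtain ⟨i, hi, hxi⟩ := S.cov u (hX hu) x (hX hx) hr
        exact ⟨i, hi, hxi, hx⟩
      | succ j ihj =>
        intro hj X hX hsm
        refine idx S (show M - (j + 1) < M by omega) hX fun X' hX' hX'2 => ?_
        refine ihj (by omega) X' (hX'.trans hX) fun i hi u hu => ?_
        by_cases h1 : i = M - (j + 1)
        · rw [h1]
          exact hX'2 u hu
        · exact (hsm i (by omega) u (hX' hu)).mono_set (Set.inter_subset_inter_right _ hX')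
    exact key M le_rfl W (Set.Subset.refl _) (fun i hi => absurd hi (by omega))

theorem UpComb.pred {V : Type u} {r : V → V → Prop} {s t : ℕ} (h : UpComb r (s + 1) t) : UpComb r s t := by
  obtain ⟨p, Z, h1, h2, h3⟩ := h
  exact ⟨p, Z, fun i hi => h1 i (by omega), fun i hi => h2 i (by omega),
    fun i l hil hl => h3 i l hil (by omega)⟩

/-- Hasse diagrams without out-combs and in-combs have bounded chromatic number. -/
theorem main (s t : ℕ) (hs : 1 ≤ s) (ht : 1 ≤ t) : ∃ C : ℕ, ∀ (V : Type u) [Finite V]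
    (r lt : V → V → Prop), HO r lt → ¬ UpComb r s t → ¬ UpComb (rev r) s t →
    ColOn r Set.univ C := by
  obtain ⟨C, hC⟩ := sk.{u} s t hs ht (al (s - 1) + 1) 1
  refine ⟨C, ?_⟩
  intro V _ r lt h hout hinn
  refine hC V r lt h hout hinn Set.univ fun u _ => ?_
  have h1 : ¬ Cm r t (s - 1 + 1) (ch r u) ∅ := by
    intro hc
    have h2 := upComb_of_cm h _ u hc
    rw [Nat.sub_add_cancel hs] at h2
    exact hout (UpComb.pred h2)
  have h3 := hom_of_not_cm h ht (s - 1) 0 (ch r u) ∅ 0 (Nat.zero_le _) h1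
    ((Sm.empty ht 0).mono_set (by simp))
  rw [Nat.zero_add] at h3
  exact h3.sm.mono_set (by simp)

end Pool.Agent.Lib.MP_b0c2b5_co.C5
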