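import Pool.Agent.Lib.MP_b0c2b5_co.C5.Sys
import Pool.Agent.Lib.MP_b0c2b5_co.C5.InC

/-! Rich vertices have bounded chromatic number. -/

set_option autoImplicit false

namespace Pool.Agent.Lib.MP_b0c2b5_co.C5

open Finset LS
open scoped Classical

universe u

variable {V : Type u} [Fintype V] {r lt : V → V → Prop} {s t k M : ℕ} {W : Set V} {H : ℕ → V → Set V}

/-- A vertex `q ∈ W` blocks at most `M` of pairwise far types.

PROOF. Suppose not. For every `u` in the filter: the elements of `par r (H i) x u` which are children of `q` are in `W` (`S.sub u`), so each is in some `H j q`, `j < M` (`S.cov q`); by pigeonhole (`M * (2 * t)` elements, `Finset.exists_lt_card_fiber_of_mul_lt_card_of_maps_to` or `exists_le_card_fiber_...`, note `M ≥ 1` because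
`i < M`) there is `j u < M` such that at least `2 * t` of them are in `H (j u) q`; let `C u` be a set of `2 * t - 1` of them: `C u ⊆ H i u` and `C u ⊆ H (j u) q`. More than `M` vertices `u`, so there are `u ≠ v` with `j u = j v` (`Finset.exists_ne_map_eq_of_card_lt_of_maps_to`). Then
`Near (As u) (Ap C u)` and `Near (Ap (C v)) (As v)` (`near_As`), `Near (Ap (C u)) (Ap (C v))` (`near_of_clus` in `H (j u) q`), so `nr ... (m1 t k) u v` (`Near.trans`, `m1 = 3 * th`): contradiction. -/
theorem blocked_le (S : Sys r lt s t k M W H) {i : ℕ} (hi : i < M) {x q : V} (hq : q ∈ W) (P : Finset V)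
    (hP : (P : Set V) ⊆ Big s t M W (H i))
    (hfar : ∀ u ∈ P, ∀ v ∈ P, u ≠ v → ¬ nr r s t k M (H i) (m1 t k) u v) :
    (P.filter (fun u => M * (2 * t) ≤ ((par r (H i) x u).filter (fun y => r q y)).card)).card ≤ M := by
  by_contra hcon
  rw [not_le] at hcon
  have ht := S.t1
  have key : ∀ u ∈ P.filter (fun u => M * (2 * t) ≤ ((par r (H i) x u).filter (fun y => r q y)).card),
      ∃ j, j < M ∧ ∃ C : Finset V, C.card = 2 * t - 1 ∧ (C : Set V) ⊆ H i u ∧ (C : Set V) ⊆ H j q := by
    intro u hu
    rw [Finset.mem_filter] at hu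
    obtain ⟨huP, hcard⟩ := hu
    have huW : u ∈ W := (hP huP).1
    have hcov : ∀ y ∈ (par r (H i) x u).filter (fun y => r q y), ∃ j < M, y ∈ H j q := by
      intro y hy
      rw [Finset.mem_filter] at hy
      have h1 : y ∈ H i u := by
        have h2 := hy.1
        unfold par at h2
        rw [Finset.mem_filter] at h2
        exact h2.2.1
      exact S.cov q hq y (S.sub u huW i hi y h1).2 hy.2
    choose! g hg1 hg2 using hcov
    obtain ⟨j, hj, hjc⟩ := Finset.exists_le_card_fiber_of_mul_le_card_of_maps_to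
      (s := (par r (H i) x u).filter (fun y => r q y)) (t := Finset.range M) (f := g) (n := 2 * t)
      (fun y hy => Finset.mem_range.2 (hg1 y hy)) ⟨i, Finset.mem_range.2 hi⟩
      (by rw [Finset.card_range]; exact hcard)
    obtain ⟨C, hC, hCc⟩ := Finset.exists_subset_card_eq
      (show 2 * t - 1 ≤ (((par r (H i) x u).filter (fun y => r q y)).filter (fun y => g y = j)).card by
        omega)
    refine ⟨j, Finset.mem_range.1 hj, C, hCc, ?_, ?_⟩
    · intro y hy
      have h1 := hC hy
      rw [Finset.mem_filter, Finset.mem_filter] at h1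
      have h2 := h1.1.1
      unfold par at h2
      rw [Finset.mem_filter] at h2
      exact h2.2.1
    · intro y hy
      have h1 := hC hy
      rw [Finset.mem_filter] at h1
      have h3 := hg2 y h1.1
      rw [h1.2] at h3
      exact h3
  choose! j hj C hCc hCi hCj using key
  obtain ⟨u, hu, v, hv, huv, hjuv⟩ := Finset.exists_ne_map_eq_of_card_lt_of_maps_to
    (s := P.filter (fun u => M * (2 * t) ≤ ((par r (H i) x u).filter (fun y => r q y)).card))
    (t := Finset.range M) (f := j) (by rw [Finset.card_range]; exact hcon)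
    (fun y hy => Finset.mem_coe.2 (Finset.mem_range.2 (hj y hy)))
  have huP : u ∈ P := (Finset.mem_filter.1 hu).1
  have hvP : v ∈ P := (Finset.mem_filter.1 hv).1
  apply hfar u huP v hvP huv
  have n1 := near_As S hi (hP huP) (hCi u hu) (hCc u hu)
  have n3 := (near_As S hi (hP hvP) (hCi v hv) (hCc v hv)).symm
  have hv2 : (C v : Set V) ⊆ H (j u) q := by
    rw [hjuv]
    exact hCj v hv
  have n2 := near_of_clus ht (S.hom q hq (j u) (hj u hu)) (hCj u hu) hv2 (hCc u hu) (hCc v hv)
  have n4 := (n1.trans n2).trans n3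
  unfold nr
  refine n4.mono ht ?_
  unfold m1
  omega

/-- PROOF. `P` from `hx`, `P.card = KK = s * (t+1) * M + 1`. The vertices `u ∈ P` which are blocked by some `q ∈ E` are at most `E.card * M ≤ s * (t+1) * M` (`blocked_le`, `card_biUnion_le`), so there is `u ∈ P` with `((par r (H i) x u).filter (r q)).card < M * (2 * t)` for all `q ∈ E`. Remove these sets from
`par r (H i) x u`, which has at least `pp s t M = s * (t+1) * (M * (2*t)) + t` elements: at least `t` elements remain, `Z` is a set of `t` of them (they are in `H i u ⊆ W`). -/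
theorem rich_step (S : Sys r lt s t k M W H) {i : ℕ} (hi : i < M) {x : V}
    (hx : Rich r s t k M W (H i) x) (E : Finset V) (hE : (E : Set V) ⊆ W) (hEc : E.card ≤ s * (t + 1)) :
    ∃ Z : Finset V, Z.card = t ∧ (Z : Set V) ⊆ W ∧ ∀ z ∈ Z, r z x ∧ ∀ q ∈ E, ¬ r q z := by
  obtain ⟨P, hPc, hPB, hPp, hfar⟩ := hx
  have hex : ∃ u ∈ P, ∀ q ∈ E, ((par r (H i) x u).filter (fun y => r q y)).card < M * (2 * t) := by
    by_contra hcon
    have hsub : P ⊆ E.biUnion (fun q => P.filter
        (fun u => M * (2 * t) ≤ ((par r (H i) x u).filter (fun y => r q y)).card)) := by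
      intro u hu
      rw [Finset.mem_biUnion]
      by_contra h2
      apply hcon
      refine ⟨u, hu, fun q hq => ?_⟩
      by_contra h3
      exact h2 ⟨q, hq, Finset.mem_filter.2 ⟨hu, not_lt.1 h3⟩⟩
    have h1 := Finset.card_le_card hsub
    have h2 := Finset.card_biUnion_le_card_mul E (fun q => P.filter
        (fun u => M * (2 * t) ≤ ((par r (H i) x u).filter (fun y => r q y)).card)) M
        (fun q hq => blocked_le S hi (hE hq) P hPB hfar)
    have h3 : E.card * M ≤ s * (t + 1) * M := Nat.mul_le_mul_right M hEc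
    unfold KK at hPc
    omega
  obtain ⟨u, huP, hu⟩ := hex
  have h1 := Finset.card_biUnion_le_card_mul E
    (fun q => (par r (H i) x u).filter (fun y => r q y)) (M * (2 * t)) (fun q hq => (hu q hq).le)
  have h2 : E.card * (M * (2 * t)) ≤ s * (t + 1) * (M * (2 * t)) := Nat.mul_le_mul_right _ hEc
  have h3 := hPp u huP
  have h4 := Finset.le_card_sdiff (E.biUnion (fun q => (par r (H i) x u).filter (fun y => r q y)))
    (par r (H i) x u)
  have h5 : t ≤ (par r (H i) x u \ E.biUnion
      (fun q => (par r (H i) x u).filter (fun y => r q y))).card := by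
    unfold pp at h3
    omega
  obtain ⟨Z, hZ, hZc⟩ := Finset.exists_subset_card_eq h5
  have hZp : ∀ z ∈ Z, z ∈ H i u ∧ r z x := by
    intro z hz
    have h6 := (Finset.mem_sdiff.1 (hZ hz)).1
    unfold par at h6
    rw [Finset.mem_filter] at h6
    exact h6.2
  refine ⟨Z, hZc, fun z hz => (S.sub u (hPB huP).1 i hi z (hZp z hz).1).2, fun z hz =>
    ⟨(hZp z hz).2, fun q hq hqz => ?_⟩⟩
  have h6 := Finset.mem_sdiff.1 (hZ hz)
  exact h6.2 (Finset.mem_biUnion.2 ⟨q, hq, Finset.mem_filter.2 ⟨h6.1, hqz⟩⟩)

/-- PROOF. `col_or_incomb` with `rich_step`. -/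
theorem rich_col (S : Sys r lt s t k M W H) {i : ℕ} (hi : i < M) :
    ColOn r {x | x ∈ W ∧ Rich r s t k M W (H i) x} s := by
  exact col_or_incomb S.s1 (W := W) (fun x hx => hx.1)
    (fun x hx E hE hEc => rich_step S hi hx.2 E hE hEc) S.inn

end Pool.Agent.Lib.MP_b0c2b5_co.C5
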