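import Pool.Agent.Lib.MP_b0c2b5_co.C5.Clus

/-!
The induction step, definitions. `W` is a set of vertices such that for every `u ∈ W` the children of `u` in `W` are covered by
`M` sets `H i u` (`i < M`) which are `k`-homogeneous. There is no out-comb and no in-comb with `s` levels and `t` leaves in each level.
The sets `Cb u`, `Cs u` are clusters in one of the sets `H i u` (`i` fixed, here called `H u`).
-/

set_option autoImplicit false

namespace Pool.Agent.Lib.MP_b0c2b5_co.C5

open Finset LS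
open scoped Classical

universe u

variable {V : Type u}

/-- the standing assumptions of the induction step -/
structure Sys (r lt : V → V → Prop) (s t k M : ℕ) (W : Set V) (H : ℕ → V → Set V) : Prop where
  ho : HO r lt
  t1 : 1 ≤ t
  s1 : 1 ≤ s
  out : ¬ UpComb r s t
  inn : ¬ UpComb (rev r) s t
  hom : ∀ u ∈ W, ∀ i < M, Hom r t k (H i u)
  sub : ∀ u ∈ W, ∀ i < M, ∀ x ∈ H i u, r u x ∧ x ∈ W
  cov : ∀ u ∈ W, ∀ x ∈ W, r u x → ∃ i < M, x ∈ H i u

/-- the threshold for large clusters -/
def pp (s t M : ℕ) : ℕ := s * (t + 1) * (M * (2 * t)) + t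

/-- the number of types in the definition of rich vertices, and of scales -/
def KK (s t M : ℕ) : ℕ := s * (t + 1) * M + 1

/-- the smallest scale -/
def m1 (t k : ℕ) : ℕ := 3 * th t k (2 * t - 1) (2 * t - 1)

/-- the constant in the definition of `VL` -/
def M3 (s t k M : ℕ) : ℕ := 2 * th t k (2 * pp s t M - 1) (2 * t - 1) + 6 * (8 ^ KK s t M * m1 t k)

/-- the constant of the arcs of the quotient digraph -/
def ms (s t k M : ℕ) : ℕ :=
  2 * (8 ^ KK s t M * m1 t k) + (2 * t * M) * (2 * t) + th t k (2 * t - 1) (2 * t - 1)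

/-- the constant of the colour classes -/
def m2 (s t k M : ℕ) : ℕ :=
  ms s t k M + (th t k (2 * pp s t M - 1) (2 * t - 1) + KK s t M * M3 s t k M)

/-- the size of the reservoirs -/
def rho (s t : ℕ) : ℕ := s * (t + 1) * t + t + 1

/-- the loss for one reservoir -/
def gam (s t k M : ℕ) : ℕ := th t k (rho s t) (2 * t - 1) + m2 s t k M

/-- the constant of the peeling -/
def M5 (s t k M : ℕ) : ℕ := s * gam s t k M + rho s t + 1

/-- the constant of the classes in which the rows are `k`-small -/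
def Mp (s t k M : ℕ) : ℕ := M5 s t k M + 2 * pp s t M

/-- the parents of `x` in `H u` -/
noncomputable def par [Fintype V] (r : V → V → Prop) (H : V → Set V) (x u : V) : Finset V :=
  univ.filter (fun y => y ∈ H u ∧ r y x)

/-- the vertices `u` for which `H u` contains a large cluster -/
def Big (s t M : ℕ) (W : Set V) (H : V → Set V) : Set V :=
  {u | u ∈ W ∧ ∃ C : Finset V, C.card = 2 * pp s t M - 1 ∧ (C : Set V) ⊆ H u}

/-- the large cluster -/
noncomputable def Cb (s t M : ℕ) (H : V → Set V) (u : V) : Finset V :=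
  if h : ∃ C : Finset V, C.card = 2 * pp s t M - 1 ∧ (C : Set V) ⊆ H u then h.choose else ∅

/-- the small cluster -/
noncomputable def Cs (s t M : ℕ) (H : V → Set V) (u : V) : Finset V :=
  if h : ∃ C : Finset V, C.card = 2 * t - 1 ∧ C ⊆ Cb s t M H u then h.choose else ∅

/-- the vertices with at least `t` parents in the small cluster of `u` -/
def As (r : V → V → Prop) (s t M : ℕ) (H : V → Set V) (u : V) : Set V := Ap r t (Cs s t M H u)

/-- the vertices with at least `pp s t M` parents in the large cluster of `u` -/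
def Ab (r : V → V → Prop) (s t M : ℕ) (H : V → Set V) (u : V) : Set V := Ap r (pp s t M) (Cb s t M H u)

/-- the distance of the types of `u` and `v` is at most `m` -/
def nr (r : V → V → Prop) (s t k M : ℕ) (H : V → Set V) (m : ℕ) (u v : V) : Prop :=
  Near r t k m (As r s t M H u) (As r s t M H v)

/-- rich vertices -/
def Rich [Fintype V] (r : V → V → Prop) (s t k M : ℕ) (W : Set V) (H : V → Set V) (x : V) : Prop :=
  ∃ P : Finset V, P.card = KK s t M ∧ (P : Set V) ⊆ Big s t M W H ∧
    (∀ u ∈ P, pp s t M ≤ (par r H x u).card) ∧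
    ∀ u ∈ P, ∀ v ∈ P, u ≠ v → ¬ nr r s t k M H (m1 t k) u v

/-- the vertices of `W` with a gap at the scale `l` -/
def PL [Fintype V] (r : V → V → Prop) (s t k M : ℕ) (W : Set V) (H : V → Set V) (l : ℕ) : Set V :=
  {x | x ∈ W ∧ ∀ u ∈ Big s t M W H, ∀ v ∈ Big s t M W H, pp s t M ≤ (par r H x u).card →
    pp s t M ≤ (par r H x v).card →
      nr r s t k M H (2 * (8 ^ l * m1 t k)) u v ∨ ¬ nr r s t k M H (6 * (8 ^ l * m1 t k)) u v}

/-- the vertices `u` for which many vertices of `Ab u` have a gap at the scale `l` -/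
def VL [Fintype V] (r : V → V → Prop) (s t k M : ℕ) (W : Set V) (H : V → Set V) (l : ℕ) : Set V :=
  {u | u ∈ Big s t M W H ∧ ¬ Sm r t k (M3 s t k M) (Ab r s t M H u ∩ PL r s t k M W H l)}

/-! ### elementary facts -/

variable {r lt : V → V → Prop} {s t k M : ℕ} {W : Set V} {H : ℕ → V → Set V}

theorem le_pp (s t M : ℕ) : t ≤ pp s t M := Nat.le_add_left _ _

theorem Cb_spec {H : V → Set V} {u : V} (h : u ∈ Big s t M W H) :
    (Cb s t M H u).card = 2 * pp s t M - 1 ∧ (Cb s t M H u : Set V) ⊆ H u := by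
  unfold Cb
  rw [dif_pos h.2]
  exact h.2.choose_spec

theorem Cs_spec (ht : 1 ≤ t) {H : V → Set V} {u : V} (h : u ∈ Big s t M W H) :
    (Cs s t M H u).card = 2 * t - 1 ∧ (Cs s t M H u : Set V) ⊆ H u := by
  obtain ⟨h1, h2⟩ := Cb_spec h
  have h3 : ∃ C : Finset V, C.card = 2 * t - 1 ∧ C ⊆ Cb s t M H u := by
    have hle := le_pp s t M
    obtain ⟨C, hC, hCc⟩ := Finset.exists_subset_card_eq (show 2 * t - 1 ≤ (Cb s t M H u).card by omega)
    exact ⟨C, hCc, hC⟩
  unfold Cs
  rw [dif_pos h3]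
  exact ⟨h3.choose_spec.1, fun x hx => h2 (h3.choose_spec.2 hx)⟩

/-- a vertex of `Ab u` has many parents in `H u` -/
theorem par_of_mem_Ab [Fintype V] {H : V → Set V} {u x : V} (h : u ∈ Big s t M W H)
    (hx : x ∈ Ab r s t M H u) : pp s t M ≤ (par r H x u).card := by
  refine le_trans hx (Finset.card_le_card fun y hy => ?_)
  rw [Finset.mem_filter] at hy
  unfold par
  rw [Finset.mem_filter]
  exact ⟨Finset.mem_univ _, (Cb_spec h).2 hy.1, hy.2⟩

/-- a cluster in the same homogeneous set as `Cs u` has nearly the same set `Ap` -/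
theorem near_As (S : Sys r lt s t k M W H) {i : ℕ} (hi : i < M) {u : V} (hu : u ∈ Big s t M W (H i))
    {C : Finset V} (hC : (C : Set V) ⊆ H i u) (hc : C.card = 2 * t - 1) :
    Near r t k (th t k (2*t-1) (2*t-1)) (As r s t M (H i) u) (Ap r t C) :=
  near_of_clus S.t1 (S.hom u hu.1 i hi) (Cs_spec S.t1 hu).2 hC (Cs_spec S.t1 hu).1 hc

theorem near_As_Ab (S : Sys r lt s t k M W H) {i : ℕ} (hi : i < M) {u : V} (hu : u ∈ Big s t M W (H i)) :
    Near r t k (th t k (2*pp s t M-1) (2*t-1)) (As r s t M (H i) u) (Ab r s t M (H i) u) :=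
  near_of_clus_big S.t1 (S.hom u hu.1 i hi) (Cs_spec S.t1 hu).2 (Cb_spec hu).2 (le_pp s t M)
    (Cs_spec S.t1 hu).1 (Cb_spec hu).1

end Pool.Agent.Lib.MP_b0c2b5_co.C5
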